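import Pool.Agent.Lib.MP_a271d0_an.W.Defs

/-! Refined flows for the dilates of a domain that is smooth near the origin. -/

set_option autoImplicit false
set_option linter.unusedSectionVars false
open MeasureTheory Filter Topology Set Module
open scoped ENNReal

namespace Pool.Agent.Lib.MP_a271d0_an.G.W

variable {E : Type*} [NormedAddCommGroup E] [InnerProductSpace ℝ E] [CompleteSpace E]
  [FiniteDimensional ℝ E] [MeasurableSpace E] [BorelSpace E]
variable {Ω Ω' : Set E} {Λ γ : ℝ} {e : E} {f g : E → ℝ}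

/-- third order flatness -/
def Lip2 (Λ : ℝ) (g : E → ℝ) : Prop :=
  ∀ (y z : E) (c : ℝ), Λ * c ≤ 1 → ‖y‖ ≤ c → ‖z‖ ≤ c →
    ‖fderiv ℝ g y - fderiv ℝ g z‖ ≤ Λ ^ 2 * c * ‖y - z‖

theorem ext_ball (C : Chart Ω Λ e f) (hΛ : 0 < Λ) {x : E} (hx : x ∈ Ω) :
    0 < Λ * ‖x‖ ^ 2 + inner ℝ e x := by
  rcases le_or_gt (Λ * ‖x‖) 1 with h | h
  · have h1 := (C.dom x h).1 hx
    linarith [neg_abs_le (f x), C.E2 hΛ h]
  · have h1 := abs_real_inner_le_norm e x
    rw [C.unit, one_mul] at h1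
    have h2 : 0 < ‖x‖ := (pos_iff_pos_of_mul_pos (lt_trans one_pos h)).1 hΛ
    nlinarith [neg_abs_le (inner ℝ e x)]

theorem fine (C : Chart Ω' Λ e g) (hΛ : 0 < Λ) (hγ0 : 0 ≤ γ) (hγ2 : γ ≤ 2)
    (h : γ ≤ 1 ∨ Lip2 Λ g) {x y z : E} (hx : Λ * ‖x‖ ≤ 1 / 5) (hy : ‖y‖ ≤ 2 * ‖x‖)
    (hz : ‖z‖ ≤ 2 * ‖x‖) {c : ℝ} (hc : 0 ≤ c) (hyz : ‖y - z‖ ≤ c * ‖x‖) :
    ‖fderiv ℝ g y - fderiv ℝ g z‖ ≤ 8 * c * Wt Λ γ x := by
  have hW := Wt_nonneg (γ := γ) hΛ x
  rcases h with h | h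
  · have h1 := C.lip y z (by nlinarith) (by nlinarith)
    have h2 := mul_le_mul_of_nonneg_left (le_two_Wt hΛ hγ0 h (x := x) (by linarith)) hc
    have h3 := mul_le_mul_of_nonneg_left hyz hΛ.le
    have h4 := mul_nonneg hc hW
    linarith
  · have h1 := h y z (2 * ‖x‖) (by linarith) hy hz
    have h2 := mul_le_mul_of_nonneg_left (sq_le_four_Wt hΛ hγ0 hγ2 (x := x) (by linarith)) hc
    have h3 := mul_le_mul_of_nonneg_left hyz (show 0 ≤ Λ ^ 2 * (2 * ‖x‖) by positivity)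
    linarith

theorem flow2 (Cf : Chart Ω Λ e f) (C : Chart Ω' Λ e g) (hΛ : 0 < Λ) (hγ0 : 0 ≤ γ) (hγ2 : γ ≤ 2)
    (h : γ ≤ 1 ∨ Lip2 Λ g)
    (mono : ∀ (x : E) (t : ℝ), 1 ≤ t → t * (f x - g x) ≤ f (t • x) - g (t • x))
    (μ : Measure E) [μ.IsAddHaarMeasure] :
    Flow2 μ Ω Λ γ (fun t x => t • x + (g (t • x) - t * g x) • e)
      (fun t x => x + (fderiv ℝ g (t • x) x - g x) • e) := by
  have F := C.flow hΛ μ
  have ns : ∀ (x : E) (t : ℝ), t ∈ Icc (0:ℝ) 2 → ‖t • x‖ ≤ 2 * ‖x‖ := fun x t ht => by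
    rw [norm_smul, Real.norm_eq_abs, abs_of_nonneg ht.1]; gcongr; exact ht.2
  refine ⟨⟨F.hom, F.one, F.cont, F.cont', F.der, F.b1, F.b2, F.b3, fun x hx t ht hy => ?_,
    F.back⟩, fun x hx t ht => ?_, fun x hx t ht => ?_⟩
  · have ht0 : 0 < t := by linarith [ht.1]
    rw [Cf.dom _ (F.geo hΛ hx ht).2.1, Cf.inv, inner_add_right, inner_smul_right, inner_smul_right,
      real_inner_self_eq_norm_sq, C.unit] at hy
    rw [Cf.dom x (by linarith)]
    apply lt_of_mul_lt_mul_left _ ht0.le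
    linarith [mono x t ht.1]
  · have hW := Wt_nonneg (γ := γ) hΛ x
    have hr := norm_nonneg x
    have g1 : |g x| ≤ 8 * Wt Λ γ x * ‖x‖ := by
      have := (convex_closedBall (0:E) ‖x‖).norm_image_sub_le_of_norm_fderiv_le (𝕜 := ℝ) (f := g)
        (C := 8 * Wt Λ γ x) (fun y _ => C.diff y) (fun y hy => by
          rw [mem_closedBall_zero_iff] at hy
          have := fine C hΛ hγ0 hγ2 h hx (y := y) (z := 0) (by linarith) (by simp) zero_le_one
            (by simpa using hy)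
          simpa [C.d0] using this) (x := 0) (y := x) (by simp) (by simp)
      rwa [C.f0, sub_zero, sub_zero, Real.norm_eq_abs] at this
    have g2 : ∀ τ ∈ Icc (0:ℝ) 2, ‖fderiv ℝ g (τ • x) x - g x‖ ≤ 24 * Wt Λ γ x * ‖x‖ := by
      intro τ hτ
      have a1 := fine C hΛ hγ0 hγ2 h hx (y := τ • x) (z := 0) (ns x τ hτ) (by simp) zero_le_two
        (by simpa only [sub_zero] using ns x τ hτ)
      rw [C.d0, sub_zero] at a1
      have a2 := (fderiv ℝ g (τ • x)).le_opNorm x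
      have a3 := mul_le_mul_of_nonneg_right a1 hr
      have a4 := abs_sub (fderiv ℝ g (τ • x) x) (g x)
      rw [Real.norm_eq_abs] at a2 ⊢
      linarith
    have := (convex_Icc (0:ℝ) 2).norm_image_sub_le_of_norm_hasDerivWithin_le
      (f := fun t : ℝ => g (t • x) - t * g x) (f' := fun t => fderiv ℝ g (t • x) x - g x)
      (fun t _ => (C.der x t).hasDerivWithinAt) g2 (x := 1) (y := t)
      ⟨by norm_num, by norm_num⟩ ⟨by linarith [ht.1], ht.2⟩
    rw [one_smul, one_mul, sub_self, sub_zero, Real.norm_eq_abs (t - 1),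
      abs_of_nonneg (show 0 ≤ t - 1 by linarith [ht.1])] at this
    rw [add_sub_cancel_left, norm_smul, C.unit, mul_one]
    linarith
  · have ht0 : 0 < t := by linarith [ht.1]
    have ht1 : 0 ≤ t - 1 := by linarith [ht.1]
    have hW := Wt_nonneg (γ := γ) hΛ x
    have h1 : HasFDerivAt (fun x : E => t • x) (t • ContinuousLinearMap.id ℝ E) x :=
      (hasFDerivAt_id x).const_smul t
    have h2 := (C.diff (t • x)).hasFDerivAt.comp x h1
    have h3 := (C.diff x).hasFDerivAt.const_mul t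
    have h4 : HasFDerivAt (fun x : E => t • x + (g (t • x) - t * g x) • e) _ x :=
      h1.add ((h2.sub h3).smul_const e)
    rw [h4.fderiv]
    refine ContinuousLinearMap.opNorm_le_bound _ (by positivity) (fun y => ?_)
    have h7 := fine C hΛ hγ0 hγ2 h hx (y := t • x) (z := x) (ns x t ⟨ht0.le, ht.2⟩)
      (by linarith [norm_nonneg x]) ht1 (by
        rw [show t • x - x = (t - 1) • x by module, norm_smul, Real.norm_eq_abs,
          abs_of_nonneg ht1])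
    have h9 := (fderiv ℝ g (t • x) - fderiv ℝ g x).le_opNorm y
    have h10 := mul_le_mul_of_nonneg_right h7 (norm_nonneg y)
    have e1 : (t • ContinuousLinearMap.id ℝ E + ((fderiv ℝ g (t • x)).comp
        (t • ContinuousLinearMap.id ℝ E) - t • fderiv ℝ g x).smulRight e) y
        = t • (y + ((fderiv ℝ g (t • x) - fderiv ℝ g x) y) • e) := by
      simp only [add_apply, smul_apply, ContinuousLinearMap.id_apply,
        ContinuousLinearMap.smulRight_apply, sub_apply, ContinuousLinearMap.comp_apply, map_smul,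
        smul_eq_mul]
      module
    rw [e1, norm_smul, Real.norm_eq_abs, abs_of_pos ht0, mul_assoc]
    gcongr
    have h11 := norm_add_le y (((fderiv ℝ g (t • x) - fderiv ℝ g x) y) • e)
    rw [norm_smul, C.unit, mul_one] at h11
    linarith

theorem Lip2.scale (h : Lip2 Λ g) (hg : Differentiable ℝ g) {R : ℝ} (hR : 0 < R) :
    Lip2 (Λ / R) (fun x => R * g (R⁻¹ • x)) := by
  have hfd : ∀ x, fderiv ℝ (fun x => R * g (R⁻¹ • x)) x = fderiv ℝ g (R⁻¹ • x) := by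
    intro x
    have h1 : HasFDerivAt (fun x : E => R⁻¹ • x) (R⁻¹ • ContinuousLinearMap.id ℝ E) x :=
      (hasFDerivAt_id x).const_smul R⁻¹
    have h2 : HasFDerivAt (fun x => R * g (R⁻¹ • x)) _ x :=
      ((hg (R⁻¹ • x)).hasFDerivAt.comp x h1).const_mul R
    rw [h2.fderiv]
    ext y
    simp [hR.ne']
  have hn : ∀ x : E, ‖R⁻¹ • x‖ = R⁻¹ * ‖x‖ := fun x => by
    rw [norm_smul, Real.norm_eq_abs, abs_of_pos (by positivity)]
  intro y z c hc hy hz
  have := h (R⁻¹ • y) (R⁻¹ • z) (R⁻¹ * c) (by rw [← mul_assoc]; exact hc)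
    (by rw [hn]; gcongr) (by rw [hn]; gcongr)
  rw [← smul_sub, hn] at this
  rw [hfd, hfd, div_eq_mul_inv]
  linarith

theorem chart_mono (C : Chart Ω Λ e f) {Λ' : ℝ} (h : Λ ≤ Λ')
    (hΩ : ∀ x, Λ' * ‖x‖ ≤ 1 → (x ∈ Ω' ↔ x ∈ Ω)) : Chart Ω' Λ' e f := by
  have k : ∀ x : E, Λ * ‖x‖ ≤ Λ' * ‖x‖ := fun x => by gcongr
  exact ⟨C.unit, C.smooth, C.inv, C.f0, C.d0,
    fun x y hx hy => (C.lip x y ((k x).trans hx) ((k y).trans hy)).trans (k _),
    fun x hx => (hΩ x hx).trans (C.dom x ((k x).trans hx))⟩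

theorem two_le_top : (2 : WithTop ℕ∞) ≤ ((⊤ : ℕ∞) : WithTop ℕ∞) := by
  have : ((2 : ℕ∞) : WithTop ℕ∞) ≤ ((⊤ : ℕ∞) : WithTop ℕ∞) := by exact_mod_cast le_top
  exact this

theorem smooth_fderiv {F : Type*} [NormedAddCommGroup F] [NormedSpace ℝ F] {k : E → F}
    (hk : ContDiff ℝ ((⊤ : ℕ∞) : WithTop ℕ∞) k) :
    ContDiff ℝ ((⊤ : ℕ∞) : WithTop ℕ∞) (fderiv ℝ k) := hk.fderiv_right (by simp)

theorem hess_nonneg {ρ : E → ℝ} (C : Chart {x | ρ x < 0} Λ e f)
    (hρ : ContDiff ℝ ((⊤ : ℕ∞) : WithTop ℕ∞) ρ) (h0 : ρ 0 = 0) (hd : fderiv ℝ ρ 0 ≠ 0)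
    (hc : ∀ v, fderiv ℝ ρ 0 v = 0 → 0 ≤ fderiv ℝ (fderiv ℝ ρ) 0 v v) (v : E) :
    0 ≤ fderiv ℝ (fderiv ℝ f) 0 v v := by
  have hee : inner ℝ e e = (1:ℝ) := by rw [real_inner_self_eq_norm_sq, C.unit]; norm_num
  have hρd := hρ.differentiable (by simp)
  have up : ∀ z : E, Λ * ‖z‖ < 1 → f z = inner ℝ e z → ∀ᶠ ε : ℝ in 𝓝[>] 0, ρ (z + ε • e) < 0 := by
    intro z hz hf
    have a1 : ∀ᶠ ε : ℝ in 𝓝 0, Λ * ‖z + ε • e‖ < 1 :=
      (by fun_prop : Continuous fun ε : ℝ => Λ * ‖z + ε • e‖).continuousAt.eventually_lt_const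
        (by simpa using hz)
    filter_upwards [nhdsWithin_le_nhds a1, self_mem_nhdsWithin] with ε h1 h2
    refine (C.dom _ h1.le).2 ?_
    rw [C.inv, inner_add_right, inner_smul_right, hee, hf]
    linarith [mem_Ioi.1 h2]
  have zero : ∀ z : E, Λ * ‖z‖ < 1 → f z = inner ℝ e z → ρ z = 0 := by
    intro z hz hf
    refine le_antisymm ?_ (not_lt.1 fun h => ((C.dom z hz.le).1 h).ne hf)
    have a1 : Tendsto (fun ε : ℝ => ρ (z + ε • e)) (𝓝[>] 0) (𝓝 (ρ z)) := by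
      have := hρ.continuous
      have a2 := (by fun_prop : Continuous fun ε : ℝ => ρ (z + ε • e)).tendsto 0
      rw [zero_smul, add_zero] at a2
      exact a2.mono_left nhdsWithin_le_nhds
    exact le_of_tendsto a1 ((up z hz hf).mono fun ε h => h.le)
  have second : ∀ v : E, fderiv ℝ ρ 0 (v - inner ℝ e v • e) = 0 ∧
      fderiv ℝ (fderiv ℝ ρ) 0 (v - inner ℝ e v • e) (v - inner ℝ e v • e)
        + fderiv ℝ (fderiv ℝ f) 0 v v * fderiv ℝ ρ 0 e = 0 := by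
    intro v
    have l1 : ∀ t : ℝ, HasDerivAt (fun t : ℝ => t • v) v t := fun t => by
      simpa using (hasDerivAt_id t).smul_const v
    have c1 : ∀ t : ℝ, HasDerivAt (fun t : ℝ => t • v + (f (t • v) - t * inner ℝ e v) • e)
        (v + (fderiv ℝ f (t • v) v - inner ℝ e v) • e) t := fun t => by
      have a1 := (C.diff (t • v)).hasFDerivAt.comp_hasDerivAt t (l1 t)
      have a2 : HasDerivAt (fun t : ℝ => t * inner ℝ e v) (inner ℝ e v) t := by
        simpa using (hasDerivAt_id t).mul_const (inner ℝ e v)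
      exact (l1 t).add ((a1.sub a2).smul_const e)
    have c2 : HasDerivAt (fun t : ℝ => v + (fderiv ℝ f (t • v) v - inner ℝ e v) • e)
        (fderiv ℝ (fderiv ℝ f) 0 v v • e) 0 := by
      have a1 := (((smooth_fderiv C.smooth).differentiable (by simp))
        ((0:ℝ) • v)).hasFDerivAt.comp_hasDerivAt (0:ℝ) (l1 0)
      have a2 := a1.clm_apply (hasDerivAt_const (0:ℝ) v)
      simpa using ((a2.sub_const (inner ℝ e v)).smul_const e).const_add v
    have k0 : ∀ᶠ t : ℝ in 𝓝 0, ρ (t • v + (f (t • v) - t * inner ℝ e v) • e) = 0 := by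
      have a0 := C.smooth.continuous
      have a1 : ∀ᶠ t : ℝ in 𝓝 0, Λ * ‖t • v + (f (t • v) - t * inner ℝ e v) • e‖ < 1 :=
        (by fun_prop : Continuous fun t : ℝ =>
          Λ * ‖t • v + (f (t • v) - t * inner ℝ e v) • e‖).continuousAt.eventually_lt_const
          (by simp [C.f0])
      filter_upwards [a1] with t ht
      refine zero _ ht ?_
      rw [C.inv, inner_add_right, inner_smul_right, inner_smul_right, hee]
      ring
    have k1 : ∀ᶠ t : ℝ in 𝓝 0, fderiv ℝ ρ (t • v + (f (t • v) - t * inner ℝ e v) • e)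
        (v + (fderiv ℝ f (t • v) v - inner ℝ e v) • e) = 0 := by
      filter_upwards [k0.eventually_nhds] with t ht
      have a1 := (hρd _).hasFDerivAt.comp_hasDerivAt t (c1 t)
      exact a1.unique ((hasDerivAt_const t (0:ℝ)).congr_of_eventuallyEq ht)
    have k2 := ((((smooth_fderiv hρ).differentiable (by simp)) _).hasFDerivAt.comp_hasDerivAt
      (0:ℝ) (c1 0)).clm_apply c2
    have k3 := k2.unique ((hasDerivAt_const (0:ℝ) (0:ℝ)).congr_of_eventuallyEq k1)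
    have k4 := k1.self_of_nhds
    simp only [zero_smul, zero_mul, C.f0, C.d0, sub_self, add_zero, zero_apply, zero_sub, neg_smul,
      ← sub_eq_add_neg, Function.comp_apply, map_smul, smul_eq_mul] at k3 k4
    exact ⟨k4, k3⟩
  have neg : fderiv ℝ ρ 0 e < 0 := by
    refine lt_of_le_of_ne ?_ fun h => hd ?_
    · have a1 : HasDerivAt (fun t : ℝ => (0:E) + t • e) e 0 := by
        simpa using (hasDerivAt_id (0:ℝ)).smul_const e
      have a2 : HasFDerivAt ρ (fderiv ℝ ρ 0) ((0:E) + (0:ℝ) • e) := by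
        simpa using (hρd 0).hasFDerivAt
      refine le_of_tendsto (a2.comp_hasDerivAt (0:ℝ) a1).tendsto_slope_zero_right ?_
      filter_upwards [up 0 (by simp) (by simp [C.f0]), self_mem_nhdsWithin] with ε h1 h2
      simp only [zero_add, Function.comp_apply, zero_smul, h0, sub_zero, smul_eq_mul] at h1 ⊢
      exact mul_nonpos_of_nonneg_of_nonpos (inv_pos.2 (mem_Ioi.1 h2)).le h1.le
    · ext y
      have := (second y).1
      rwa [map_sub, map_smul, h, smul_zero, sub_zero] at this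
  have h1 := hc _ (second v).1
  have h2 := (second v).2
  by_contra h3
  nlinarith [mul_pos_of_neg_of_neg (not_le.1 h3) neg]

theorem exists_lip2 (C : Chart Ω Λ e f) (hΛ : 0 < Λ) (hA : ∀ v, 0 ≤ fderiv ℝ (fderiv ℝ f) 0 v v) :
    ∃ Λ' g, Λ ≤ Λ' ∧ Chart {x | g x < inner ℝ e x} Λ' e g ∧ Lip2 Λ' g ∧
      ∀ (x : E) (t : ℝ), 1 ≤ t → t * (f x - g x) ≤ f (t • x) - g (t • x) := by
  set A := fderiv ℝ (fderiv ℝ f) 0 with hAd
  have sym : ∀ v w, A v w = A w v :=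
    C.smooth.contDiffAt.isSymmSndFDerivAt (by simpa using two_le_top)
  have hf1 := smooth_fderiv C.smooth
  have hf2 := smooth_fderiv hf1
  have hf1d := hf1.differentiable (by simp)
  have Ae : A e = 0 := by
    have a0 : ∀ t : ℝ, fderiv ℝ f ((0:E) + t • e) = fderiv ℝ f 0 := fun t => by
      rw [← fderiv_comp_add_right]
      simp only [C.inv]
    have a1 : HasDerivAt (fun t : ℝ => (0:E) + t • e) e 0 := by
      simpa using (hasDerivAt_id (0:ℝ)).smul_const e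
    have a2 : HasFDerivAt (fderiv ℝ f) A ((0:E) + (0:ℝ) • e) := by
      simpa using (hf1d 0).hasFDerivAt
    have a3 := a2.comp_hasDerivAt (0:ℝ) a1
    rw [show (fderiv ℝ f ∘ fun t : ℝ => (0:E) + t • e) = fun _ => fderiv ℝ f 0 from funext a0] at a3
    exact a3.unique (hasDerivAt_const _ _)
  have dg : ∀ x, fderiv ℝ (fun x => f x - 2⁻¹ * A x x) x = fderiv ℝ f x - A x := by
    intro x
    have a1 : HasFDerivAt (fun x => f x - 2⁻¹ * A x x) _ x :=
      (C.diff x).hasFDerivAt.sub ((A.hasFDerivAt.clm_apply (hasFDerivAt_id x)).const_mul 2⁻¹)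
    rw [a1.fderiv]
    ext y
    simp only [sub_apply, smul_apply, add_apply, ContinuousLinearMap.comp_apply,
      ContinuousLinearMap.id_apply, ContinuousLinearMap.flip_apply, id, smul_eq_mul, sym y x]
    ring
  obtain ⟨K, V, hV, hK⟩ :=
    ((hf2.of_le (by exact_mod_cast le_top)).contDiffAt (n := 1) (x := 0)).exists_lipschitzOnWith
  obtain ⟨ε, hε, hεV⟩ := Metric.nhds_basis_closedBall.mem_iff.1 hV
  have hK0 : (0:ℝ) ≤ K := K.2
  have hε' : 0 < ε⁻¹ := by positivity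
  have L2 : Lip2 (Λ + ε⁻¹ + K + 1) (fun x => f x - 2⁻¹ * A x x) := by
    intro y z c hc hy hz
    have c0 : 0 ≤ c := (norm_nonneg y).trans hy
    have c1 : c ≤ ε := by
      have : ε⁻¹ * c ≤ 1 := le_trans (by gcongr; linarith) hc
      rwa [inv_mul_le_iff₀ hε, mul_one] at this
    have := (convex_closedBall (0:E) c).norm_image_sub_le_of_norm_fderiv_le' (𝕜 := ℝ)
      (f := fderiv ℝ f) (φ := A) (C := K * c) (fun x _ => hf1d x) (fun x hx => by
        have a1 := hK.dist_le_mul x (hεV (Metric.closedBall_subset_closedBall c1 hx)) 0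
          (hεV (Metric.mem_closedBall_self hε.le))
        rw [dist_eq_norm, dist_zero_right] at a1
        rw [mem_closedBall_zero_iff] at hx
        exact a1.trans (by gcongr)) (x := z) (y := y) (mem_closedBall_zero_iff.2 hz)
      (mem_closedBall_zero_iff.2 hy)
    rw [dg, dg, sub_sub_sub_comm, ← map_sub]
    refine this.trans ?_
    gcongr
    nlinarith
  refine ⟨Λ + ε⁻¹ + K + 1, fun x => f x - 2⁻¹ * A x x, by linarith,
    ⟨C.unit, ?_, fun x t => ?_, by simp [C.f0], by rw [dg]; simp [C.d0], fun x y hx hy => ?_,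
      fun x _ => Iff.rfl⟩, L2, fun x t ht => ?_⟩
  · exact C.smooth.sub (contDiff_const.mul (A.contDiff.clm_apply contDiff_id))
  · have a1 : A x e = 0 := by rw [sym, Ae, zero_apply]
    simp only [C.inv, map_add, map_smul, Ae, smul_zero, add_zero, a1]
  · have a0 : 0 < Λ + ε⁻¹ + K + 1 := by positivity
    have a1 : (Λ + ε⁻¹ + K + 1) * max ‖x‖ ‖y‖ ≤ 1 := by
      rcases le_total ‖x‖ ‖y‖ with h | h
      · rwa [max_eq_right h]
      · rwa [max_eq_left h]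
    have a2 := L2 x y _ a1 (le_max_left _ _) (le_max_right _ _)
    have a3 := mul_le_mul_of_nonneg_right a1
      (show 0 ≤ (Λ + ε⁻¹ + K + 1) * ‖x - y‖ by positivity)
    linarith
  · have a1 := hA x
    have a2 : 0 ≤ t * (t - 1) * A x x := mul_nonneg (mul_nonneg (by linarith) (by linarith)) a1
    simp only [map_smul, smul_apply, smul_eq_mul]
    linarith

theorem exists_flow2 (μ : Measure E) [μ.IsAddHaarMeasure] {γ : ℝ} (hγ0 : 0 ≤ γ) (hγ2 : γ ≤ 2)
    {Ω : Set E} {ρ : E → ℝ} (hρ : ContDiff ℝ ((⊤ : ℕ∞) : WithTop ℕ∞) ρ) (h0 : ρ 0 = 0)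
    (hd : fderiv ℝ ρ 0 ≠ 0) (hΩ : ∀ᶠ x in 𝓝 (0:E), x ∈ Ω ↔ ρ x < 0)
    (hc : γ ≤ 1 ∨ ∀ v, fderiv ℝ ρ 0 v = 0 → 0 ≤ fderiv ℝ (fderiv ℝ ρ) 0 v v) :
    ∃ Λ : ℝ, 0 < Λ ∧ ∃ e : E, ‖e‖ = 1 ∧ ∀ R : ℝ, 0 < R →
      (∀ x ∈ (fun x => R • x) '' Ω, 0 < Λ / R * ‖x‖ ^ 2 + inner ℝ e x) ∧
      ∃ Φ Φ' : ℝ → E → E, Flow2 μ ((fun x => R • x) '' Ω) (Λ / R) γ Φ Φ' := by
  obtain ⟨Λ₀, hΛ₀, e, f, C₀⟩ := exists_chart hρ h0 hd
  obtain ⟨ε, hε, hεΩ⟩ := Metric.nhds_basis_closedBall.eventually_iff.1 hΩ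
  have hε' : 0 < ε⁻¹ := by positivity
  have C : Chart Ω (Λ₀ + ε⁻¹) e f := chart_mono C₀ (by linarith) fun x hx => hεΩ (by
    have : ε⁻¹ * ‖x‖ ≤ 1 := le_trans (by gcongr; linarith) hx
    rwa [inv_mul_le_iff₀ hε, mul_one, ← mem_closedBall_zero_iff] at this)
  obtain ⟨Λ, g, Ω', hΛ, Cf, Cg, h, mono⟩ : ∃ (Λ : ℝ) (g : E → ℝ) (Ω' : Set E), 0 < Λ ∧
      Chart Ω Λ e f ∧ Chart Ω' Λ e g ∧ (γ ≤ 1 ∨ Lip2 Λ g) ∧
      ∀ (x : E) (t : ℝ), 1 ≤ t → t * (f x - g x) ≤ f (t • x) - g (t • x) := by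
    rcases hc with hc | hc
    · exact ⟨_, f, Ω, by positivity, C, C, Or.inl hc, fun x t _ => by simp⟩
    · obtain ⟨Λ, g, h1, h2, h3, h4⟩ := exists_lip2 C (by positivity) (hess_nonneg C₀ hρ h0 hd hc)
      exact ⟨Λ, g, _, by linarith, chart_mono C h1 fun _ _ => Iff.rfl, h2, Or.inr h3, h4⟩
  refine ⟨Λ, hΛ, e, C.unit, fun R hR => ⟨fun x hx => ext_ball (Cf.scale hR) (by positivity) hx,
    _, _, flow2 (Cf.scale hR) (Cg.scale hR) (by positivity) hγ0 hγ2
      (h.imp id fun h => h.scale Cg.diff hR) (fun x t ht => ?_) μ⟩⟩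
  have := mul_le_mul_of_nonneg_left (mono (R⁻¹ • x) t ht) hR.le
  rw [smul_comm t] at this
  linarith

end Pool.Agent.Lib.MP_a271d0_an.G.W
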