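import Pool.Agent.Lib.MP_a271d0_an.GChart

/-! The bounded weight and the refined flows. -/

set_option autoImplicit false
set_option linter.unusedSectionVars false
open MeasureTheory Filter Topology Set Module
open scoped ENNReal

namespace Pool.Agent.Lib.MP_a271d0_an.G.W

variable {E : Type*} [NormedAddCommGroup E] [InnerProductSpace ℝ E] [CompleteSpace E]
  [FiniteDimensional ℝ E] [MeasurableSpace E] [BorelSpace E]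

/-- the bounded weight at scale `1/Λ` -/
noncomputable def Wt (Λ γ : ℝ) (x : E) : ℝ := (Λ * ‖x‖ / (1 + Λ * ‖x‖)) ^ γ

variable {Λ γ : ℝ}

theorem Wt_nonneg (hΛ : 0 < Λ) (x : E) : 0 ≤ Wt Λ γ x := by
  unfold Wt; positivity

theorem Wt_base (hΛ : 0 < Λ) (x : E) : Λ * ‖x‖ / (1 + Λ * ‖x‖) ≤ 1 := by
  rw [div_le_one (by positivity)]; linarith

theorem Wt_le_one (hΛ : 0 < Λ) (hγ : 0 ≤ γ) (x : E) : Wt Λ γ x ≤ 1 :=
  Real.rpow_le_one (by positivity) (Wt_base hΛ x) hγ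

theorem Wt_cont (hΛ : 0 < Λ) (hγ : 0 ≤ γ) : Continuous (Wt Λ γ : E → ℝ) := by
  unfold Wt
  refine Continuous.rpow_const ?_ fun _ => Or.inr hγ
  exact Continuous.div (by fun_prop) (by fun_prop) fun x => by positivity

theorem Wt_mono (hΛ : 0 < Λ) (hγ : 0 ≤ γ) {x y : E} (h : ‖x‖ ≤ ‖y‖) : Wt Λ γ x ≤ Wt Λ γ y := by
  refine Real.rpow_le_rpow (by positivity) ?_ hγ
  rw [div_le_div_iff₀ (by positivity) (by positivity)]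
  nlinarith [mul_le_mul_of_nonneg_left h hΛ.le]

theorem sq_le_Wt (hΛ : 0 < Λ) (hγ : 0 ≤ γ) (hγ2 : γ ≤ 2) (x : E) :
    (Λ * ‖x‖ / (1 + Λ * ‖x‖)) ^ 2 ≤ Wt Λ γ x := by
  have := Real.rpow_le_rpow_of_exponent_ge' (x := Λ * ‖x‖ / (1 + Λ * ‖x‖)) (y := 2) (z := γ)
    (by positivity) (Wt_base hΛ x) hγ hγ2
  rwa [Real.rpow_two] at this

/-- lower bound near the origin, quadratic form -/
theorem sq_le_four_Wt (hΛ : 0 < Λ) (hγ : 0 ≤ γ) (hγ2 : γ ≤ 2) {x : E} (hx : Λ * ‖x‖ ≤ 1) :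
    (Λ * ‖x‖) ^ 2 ≤ 4 * Wt Λ γ x := by
  have h := sq_le_Wt hΛ hγ hγ2 x
  have h0 : 0 ≤ Λ * ‖x‖ := by positivity
  have h1 : Λ * ‖x‖ / 2 ≤ Λ * ‖x‖ / (1 + Λ * ‖x‖) :=
    div_le_div_of_nonneg_left h0 (by positivity) (by linarith)
  have h2 := pow_le_pow_left₀ (by positivity) h1 2
  linarith

/-- lower bound near the origin, linear form -/
theorem le_two_Wt (hΛ : 0 < Λ) (hγ : 0 ≤ γ) (hγ1 : γ ≤ 1) {x : E} (hx : Λ * ‖x‖ ≤ 1) :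
    Λ * ‖x‖ ≤ 2 * Wt Λ γ x := by
  have h := Real.rpow_le_rpow_of_exponent_ge' (x := Λ * ‖x‖ / (1 + Λ * ‖x‖)) (y := 1) (z := γ)
    (by positivity) (Wt_base hΛ x) hγ hγ1
  rw [Real.rpow_one] at h
  have h0 : 0 ≤ Λ * ‖x‖ := by positivity
  have h1 : Λ * ‖x‖ / 2 ≤ Λ * ‖x‖ / (1 + Λ * ‖x‖) :=
    div_le_div_of_nonneg_left h0 (by positivity) (by linarith)
  unfold Wt
  linarith

/-- lower bound away from the origin -/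
theorem far_Wt (hΛ : 0 < Λ) (hγ : 0 ≤ γ) (hγ2 : γ ≤ 2) {x : E} (hx : 1 / 20 ≤ Λ * ‖x‖) :
    1 ≤ 441 * Wt Λ γ x := by
  have h := sq_le_Wt hΛ hγ hγ2 x
  have h1 : 1 / 21 ≤ Λ * ‖x‖ / (1 + Λ * ‖x‖) := by
    rw [le_div_iff₀ (by positivity)]; linarith
  have h2 := pow_le_pow_left₀ (by norm_num) h1 2
  linarith

/-- approximate dilations with errors measured by the weight -/
structure Flow2 (μ : Measure E) (Ω : Set E) (Λ γ : ℝ) (Φ Φ' : ℝ → E → E) : Prop where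
  fl : Flow μ Ω Λ Φ Φ'
  c2 : ∀ x, Λ * ‖x‖ ≤ 1 / 5 → ∀ t ∈ Icc (1:ℝ) 2,
    ‖Φ t x - t • x‖ ≤ 24 * (t - 1) * Wt Λ γ x * ‖x‖
  c3 : ∀ x, Λ * ‖x‖ ≤ 1 / 5 → ∀ t ∈ Icc (1:ℝ) 2,
    ‖fderiv ℝ (Φ t) x‖ ≤ t * (1 + 8 * (t - 1) * Wt Λ γ x)

end Pool.Agent.Lib.MP_a271d0_an.G.W
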