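import Pool.Agent.Lib.MP_a271d0_an.W.Defs

/-! Hardy inequality outside a ball that touches the origin. -/

set_option autoImplicit false
set_option linter.unusedSectionVars false
open MeasureTheory Filter Topology Set Module
open scoped ENNReal

namespace Pool.Agent.Lib.MP_a271d0_an.G.W

variable {E : Type*} [NormedAddCommGroup E] [InnerProductSpace ℝ E] [CompleteSpace E]
  [FiniteDimensional ℝ E] [MeasurableSpace E] [BorelSpace E]
variable {μ : Measure E} [μ.IsAddHaarMeasure]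

theorem div_radial {h : E → ℝ} (hh : ContDiff ℝ 1 h) (hc : HasCompactSupport h) (c : E) :
    Integrable (fun x => fderiv ℝ h x (x - c) + finrank ℝ E * h x) μ ∧
    ∫ x, (fderiv ℝ h x (x - c) + finrank ℝ E * h x) ∂μ = 0 := by
  let b := stdOrthonormalBasis ℝ E
  have ih : Integrable h μ := hh.continuous.integrable_of_hasCompactSupport hc
  have hD := hh.continuous_fderiv one_ne_zero
  have i1 : ∀ i, Integrable (fun x => inner ℝ (b i) (x - c) * fderiv ℝ h x (b i)) μ := fun i =>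
    Continuous.integrable_of_hasCompactSupport (by fun_prop)
      (hc.fderiv_apply (𝕜 := ℝ) (b i)).mul_left
  have d1 : ∀ i x, HasFDerivAt (fun x : E => inner ℝ (b i) (x - c)) (innerSL ℝ (b i)) x := by
    intro i x
    have := (innerSL ℝ (b i)).hasFDerivAt.comp x ((hasFDerivAt_id x).sub_const c)
    simpa [Function.comp_def] using this
  have d2 : ∀ i x, fderiv ℝ (fun x : E => inner ℝ (b i) (x - c)) x (b i) = 1 := by
    intro i x
    rw [(d1 i x).fderiv, innerSL_apply_apply, real_inner_self_eq_norm_sq, b.norm_eq_one]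
    norm_num
  have e1 : ∀ i, ∫ x, inner ℝ (b i) (x - c) * fderiv ℝ h x (b i) ∂μ = -∫ x, h x ∂μ := by
    intro i
    have := integral_mul_fderiv_eq_neg_fderiv_mul_of_integrable (μ := μ)
      (f := fun x : E => inner ℝ (b i) (x - c)) (g := h) (v := b i)
      (by simpa only [d2, one_mul] using ih) (i1 i)
      (Continuous.integrable_of_hasCompactSupport (by have := hh.continuous; fun_prop) hc.mul_left)
      (fun x _ => (d1 i x).differentiableAt) (fun x _ => hh.differentiable one_ne_zero x)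
    simpa only [d2, one_mul] using this
  have e2 : ∀ x, fderiv ℝ h x (x - c) = ∑ i, inner ℝ (b i) (x - c) * fderiv ℝ h x (b i) := by
    intro x
    conv_lhs => rw [← b.sum_repr' (x - c)]
    rw [map_sum]
    simp only [map_smul, smul_eq_mul]
  have i2 : Integrable (fun x => fderiv ℝ h x (x - c)) μ := by
    simp only [e2]
    exact integrable_finsetSum _ fun i _ => i1 i
  refine ⟨i2.add (ih.const_mul _), ?_⟩
  rw [integral_add i2 (ih.const_mul _), integral_const_mul]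
  simp only [e2]
  rw [integral_finsetSum _ fun i _ => i1 i]
  simp only [e1, Finset.sum_const, Finset.card_univ, Fintype.card_fin, nsmul_eq_mul]
  ring

/-- divergence of the field with a pole on a sphere, against a square -/
noncomputable def pole (c : E) (σ : ℝ) (ψ : E → ℝ) (x : E) : ℝ :=
  ψ x ^ 2 * (finrank ℝ E / (‖x - c‖ ^ 2 - σ) - 2 * ‖x - c‖ ^ 2 / (‖x - c‖ ^ 2 - σ) ^ 2)
    + 2 * ψ x * ((‖x - c‖ ^ 2 - σ)⁻¹ * inner ℝ (gradient ψ x) (x - c))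

theorem pole_zero {ψ : E → ℝ} (hψ : ContDiff ℝ 1 ψ) (hc : HasCompactSupport ψ) (c : E) (σ : ℝ)
    (hσ : ∀ x ∈ tsupport ψ, ‖x - c‖ ^ 2 - σ ≠ 0) :
    Integrable (pole c σ ψ) μ ∧ ∫ x, pole c σ ψ x ∂μ = 0 := by
  have hn : ContDiff ℝ 1 (fun x : E => ‖x - c‖ ^ 2 - σ) :=
    (((contDiff_id.sub contDiff_const).norm_sq ℝ)).sub contDiff_const
  have hz : ∀ x, x ∉ tsupport ψ →
      (fun x => (‖x - c‖ ^ 2 - σ)⁻¹ * ψ x ^ 2) =ᶠ[𝓝 x] fun _ => 0 := by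
    intro x hx
    filter_upwards [notMem_tsupport_iff_eventuallyEq.1 hx] with y hy
    simp [hy]
  have hh : ContDiff ℝ 1 (fun x => (‖x - c‖ ^ 2 - σ)⁻¹ * ψ x ^ 2) := by
    rw [contDiff_iff_contDiffAt]
    intro x
    by_cases hx : x ∈ tsupport ψ
    · exact (hn.contDiffAt.inv (hσ x hx)).mul (hψ.contDiffAt.pow 2)
    · exact contDiffAt_const.congr_of_eventuallyEq (hz x hx)
  have h2 : HasCompactSupport ((fun y : ℝ => y ^ 2) ∘ ψ) := hc.comp_left (by simp)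
  have key := div_radial (μ := μ) hh h2.mul_left c
  have e : ∀ x, fderiv ℝ (fun x => (‖x - c‖ ^ 2 - σ)⁻¹ * ψ x ^ 2) x (x - c)
      + finrank ℝ E * ((‖x - c‖ ^ 2 - σ)⁻¹ * ψ x ^ 2) = pole c σ ψ x := by
    intro x
    by_cases hx : x ∈ tsupport ψ
    · have a1 : HasFDerivAt (fun x : E => ‖x - c‖ ^ 2 - σ) _ x :=
        (((hasFDerivAt_id x).sub_const c).norm_sq).sub_const σ
      have a2 := (hasDerivAt_inv (hσ x hx)).comp_hasFDerivAt x a1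
      have a3 := (hψ.differentiable one_ne_zero x).hasFDerivAt.pow 2
      have a4 : HasFDerivAt (fun x => (‖x - c‖ ^ 2 - σ)⁻¹ * ψ x ^ 2) _ x := a2.mul a3
      rw [a4.fderiv, pole, inner_gradient_left]
      have := hσ x hx
      simp only [add_apply, smul_apply, smul_eq_mul,
        Function.comp_apply, ContinuousLinearMap.comp_apply, ContinuousLinearMap.id_apply, id,
        innerSL_apply_apply, real_inner_self_eq_norm_sq, nsmul_eq_mul]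
      field_simp
      ring
    · rw [(hz x hx).fderiv_eq, pole, image_eq_zero_of_notMem_tsupport hx]
      simp
  simp only [e] at key
  exact key

theorem ext_alg {n a d τ : ℝ} (ha : a ≠ 0) (hd : d ≠ 0) (hτ : τ ≠ 0) :
    n / 2 * (n / a - 2 * a / a ^ 2) + n / 2 * (n / τ - 2 * τ / τ ^ 2)
      - 2 * (n / d - 2 * (d + (τ - 2 * d + a) / 4) / d ^ 2)
      - ((n / 2 * (a⁻¹ + τ⁻¹) - 2 * d⁻¹) ^ 2 * a
        + 2 * (n / 2 * (a⁻¹ + τ⁻¹) - 2 * d⁻¹) * (n / 2 * τ⁻¹ - d⁻¹) * (d - a)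
        + (n / 2 * τ⁻¹ - d⁻¹) ^ 2 * (τ - 2 * d + a))
      = n ^ 2 / 4 * (τ - 2 * d + a) / (a * τ) := by
  field_simp
  ring

theorem ext_point (hn : 3 ≤ finrank ℝ E) {Λ : ℝ} (hΛ : 0 < Λ) {e : E} (he : ‖e‖ = 1)
    (ψ : E → ℝ) {x : E} (hx : 0 < Λ * ‖x‖ ^ 2 + inner ℝ e x) :
    (‖x - 0‖ ^ 2 - 0 ≠ 0 ∧ ‖x - -(Λ⁻¹ • e)‖ ^ 2 - 0 ≠ 0 ∧
      ‖x - -((Λ⁻¹ / 2) • e)‖ ^ 2 - (Λ⁻¹ / 2) ^ 2 ≠ 0) ∧
    2 * (‖x‖ ^ (-2 : ℝ) * ((1 + Λ * ‖x‖) ^ 2)⁻¹ * ψ x ^ 2) ≤ ‖gradient ψ x‖ ^ 2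
      + ((finrank ℝ E : ℝ) / 2 * pole 0 0 ψ x + (finrank ℝ E : ℝ) / 2 * pole (-(Λ⁻¹ • e)) 0 ψ x
        - 2 * pole (-((Λ⁻¹ / 2) • e)) ((Λ⁻¹ / 2) ^ 2) ψ x) := by
  have hn' : (3:ℝ) ≤ finrank ℝ E := by exact_mod_cast hn
  set k := Λ⁻¹ with hk
  have hk0 : 0 < k := by positivity
  have hkΛ : k * Λ = 1 := inv_mul_cancel₀ hΛ.ne'
  have nrm : ∀ t : ℝ, ‖x - -(t • e)‖ ^ 2 = ‖x‖ ^ 2 + 2 * (t * inner ℝ e x) + t ^ 2 := by
    intro t
    rw [sub_neg_eq_add, norm_add_sq_real, inner_smul_right, real_inner_comm, norm_smul, he,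
      mul_one, Real.norm_eq_abs, sq_abs]
  have hx0 : x ≠ 0 := by
    rintro rfl
    simp at hx
  have hr : 0 < ‖x‖ := norm_pos_iff.2 hx0
  obtain ⟨a, ha⟩ : ∃ a, a = ‖x‖ ^ 2 := ⟨_, rfl⟩
  obtain ⟨d, hd⟩ : ∃ d, d = a + k * inner ℝ e x := ⟨_, rfl⟩
  obtain ⟨τ, hτ⟩ : ∃ τ, τ = ‖x - -(k • e)‖ ^ 2 := ⟨_, rfl⟩
  have ha0 : 0 < a := by rw [ha]; positivity
  have hd0 : 0 < d := by
    have := mul_pos hk0 hx
    rw [mul_add, ← mul_assoc, hkΛ, one_mul] at this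
    rw [hd, ha]; exact this
  have hτe : τ - 2 * d + a = k ^ 2 := by rw [hτ, nrm, hd, ha]; ring
  have hτ0 : 0 < τ := by
    rw [hτ]
    refine pow_pos (norm_pos_iff.2 fun h => ?_) 2
    have h1 : x = -(k • e) := sub_eq_zero.1 h
    have h2 : inner ℝ e x = -k := by
      rw [h1, inner_neg_right, inner_smul_right, real_inner_self_eq_norm_sq, he]; ring
    have h3 : τ = 0 := by rw [hτ, h, norm_zero]; ring
    rw [h2] at hd
    nlinarith
  have e3 : ‖x - -((k / 2) • e)‖ ^ 2 = d + (τ - 2 * d + a) / 4 := by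
    rw [hτe, nrm, hd, ha]; ring
  have e4 : ‖x - -((k / 2) • e)‖ ^ 2 - (k / 2) ^ 2 = d := by rw [nrm, hd, ha]; ring
  refine ⟨⟨by rw [sub_zero, sub_zero, ← ha]; exact ha0.ne', by rw [sub_zero, ← hτ]; exact hτ0.ne',
    by rw [e4]; exact hd0.ne'⟩, ?_⟩
  set n : ℝ := (finrank ℝ E : ℝ) with hnn
  set A := n / 2 * (a⁻¹ + τ⁻¹) - 2 * d⁻¹ with hA
  set B := n / 2 * τ⁻¹ - d⁻¹ with hB
  have hY : ‖A • x + (B * k) • e‖ ^ 2 = A ^ 2 * a + 2 * A * B * (d - a) + B ^ 2 * (τ - 2 * d + a) := by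
    rw [norm_add_sq_real, inner_smul_left, inner_smul_right, real_inner_comm, norm_smul, norm_smul,
      he, mul_one, mul_pow, Real.norm_eq_abs, Real.norm_eq_abs, sq_abs, sq_abs, hτe, hd, ← ha]
    simp only [conj_trivial]
    ring
  have h0 := sq_nonneg ‖gradient ψ x + ψ x • (A • x + (B * k) • e)‖
  rw [norm_add_sq_real, norm_smul, mul_pow, hY, Real.norm_eq_abs, sq_abs, inner_smul_right,
    inner_add_right, inner_smul_right, inner_smul_right] at h0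
  have alg := ext_alg (n := n) ha0.ne' hd0.ne' hτ0.ne'
  rw [← hA, ← hB] at alg
  have low : 2 * (‖x‖ ^ (-2 : ℝ) * ((1 + Λ * ‖x‖) ^ 2)⁻¹)
      ≤ n ^ 2 / 4 * (τ - 2 * d + a) / (a * τ) := by
    have b1 : ‖x - -(k • e)‖ ≤ k * (1 + Λ * ‖x‖) := by
      refine (norm_sub_le _ _).trans ?_
      rw [norm_neg, norm_smul, he, Real.norm_eq_abs, abs_of_pos hk0, mul_add, ← mul_assoc, hkΛ]
      linarith
    have b2 : τ ≤ (k * (1 + Λ * ‖x‖)) ^ 2 := by rw [hτ]; gcongr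
    have b3 : ‖x‖ ^ (-2 : ℝ) = a⁻¹ := by rw [Real.rpow_neg hr.le, Real.rpow_two, ha]
    rw [b3, hτe, le_div_iff₀ (by positivity)]
    have b4 : 2 * (a⁻¹ * ((1 + Λ * ‖x‖) ^ 2)⁻¹) * (a * τ)
        = 2 * (τ / (1 + Λ * ‖x‖) ^ 2) := by field_simp
    have b5 : τ / (1 + Λ * ‖x‖) ^ 2 ≤ k ^ 2 := by
      rw [div_le_iff₀ (by positivity), ← mul_pow]; exact b2
    have b6 : 2 * k ^ 2 ≤ n ^ 2 / 4 * k ^ 2 := by
      gcongr; nlinarith
    rw [b4]
    linarith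
  have low2 := mul_le_mul_of_nonneg_right low (sq_nonneg (ψ x))
  rw [← alg] at low2
  unfold pole
  rw [e4, e3, sub_zero, sub_zero, sub_zero, ← hτ, ← ha, ← hnn, sub_neg_eq_add, sub_neg_eq_add,
    inner_add_right, inner_add_right, inner_smul_right, inner_smul_right]
  rw [hA, hB] at h0
  rw [hA, hB] at low2
  linarith

theorem ext_hardy (hn : 3 ≤ finrank ℝ E) {Λ : ℝ} (hΛ : 0 < Λ) {e : E} (he : ‖e‖ = 1) {Ω : Set E}
    (hΩ : ∀ x ∈ Ω, 0 < Λ * ‖x‖ ^ 2 + inner ℝ e x) {w : E → ℝ} {G : E → E} {ψ : ℕ → E → ℝ}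
    (S : H10 μ Ω w G ψ) :
    Integrable (fun x => ‖x‖ ^ (-2 : ℝ) * ((1 + Λ * ‖x‖) ^ 2)⁻¹ * w x ^ 2) μ ∧
    2 * ∫ x, ‖x‖ ^ (-2 : ℝ) * ((1 + Λ * ‖x‖) ^ 2)⁻¹ * w x ^ 2 ∂μ ≤ ∫ x, ‖G x‖ ^ 2 ∂μ := by
  have h0 : (0:E) ∉ Ω := fun h => by simpa using hΩ 0 h
  have hi : ∀ f, IsTest Ω f →
      Integrable (fun x => ‖x‖ ^ (-2 : ℝ) * ((1 + Λ * ‖x‖) ^ 2)⁻¹ * f x ^ 2) μ := by
    intro f hf
    have h1 := int_w_sq μ hf.c1.continuous hf.2.1 (fun h => h0 (hf.2.2 h)) (-2)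
    have h2 := hf.c1.continuous
    refine h1.mono' (Measurable.aestronglyMeasurable (by fun_prop)) (ae_of_all _ fun x => ?_)
    rw [Real.norm_eq_abs, abs_of_nonneg (by positivity)]
    have h3 : ((1 + Λ * ‖x‖) ^ 2)⁻¹ ≤ 1 :=
      inv_le_one_of_one_le₀ (one_le_pow₀ (le_add_of_nonneg_right (by positivity)))
    have h4 := mul_le_mul_of_nonneg_left h3 (show 0 ≤ ‖x‖ ^ (-2 : ℝ) * f x ^ 2 by positivity)
    linarith
  have test : ∀ f, IsTest Ω f →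
      ∫ x, ‖x‖ ^ (-2 : ℝ) * ((1 + Λ * ‖x‖) ^ 2)⁻¹ * f x ^ 2 ∂μ
        ≤ 2⁻¹ * ∫ x, ‖gradient f x‖ ^ 2 ∂μ := by
    intro f hf
    have pt := fun x (hx : x ∈ tsupport f) => ext_point hn hΛ he f (hΩ x (hf.2.2 hx))
    obtain ⟨i1, e1⟩ := pole_zero (μ := μ) hf.c1 hf.2.1 0 0 fun x hx => (pt x hx).1.1
    obtain ⟨i2, e2⟩ := pole_zero (μ := μ) hf.c1 hf.2.1 _ 0 fun x hx => (pt x hx).1.2.1
    obtain ⟨i3, e3⟩ := pole_zero (μ := μ) hf.c1 hf.2.1 _ _ fun x hx => (pt x hx).1.2.2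
    have i0 := int_grad_sq μ hf.c1 hf.2.1
    have j1 := iadd (i1.const_mul ((finrank ℝ E : ℝ) / 2)) (i2.const_mul ((finrank ℝ E : ℝ) / 2))
    have j2 := isub j1 (i3.const_mul 2)
    have := integral_mono ((hi f hf).const_mul 2) (iadd i0 j2) (fun x => by
      by_cases hx : x ∈ tsupport f
      · exact (pt x hx).2
      · simp [pole, image_eq_zero_of_notMem_tsupport hx])
    rw [integral_add i0 j2, integral_sub j1 (i3.const_mul 2),
      integral_add (i1.const_mul _) (i2.const_mul _), integral_const_mul, integral_const_mul,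
      integral_const_mul, integral_const_mul, e1, e2, e3] at this
    linarith
  obtain ⟨-, h2⟩ := S.cAw (m := fun _ => 1) (by fun_prop) (fun x => zero_le_one) (C := 1)
    (fun _ _ => le_rfl)
  simp only [one_mul] at h2
  have := fatou_real (μ := μ)
    (f := fun n x => ‖x‖ ^ (-2 : ℝ) * ((1 + Λ * ‖x‖) ^ 2)⁻¹ * ψ n x ^ 2)
    (g := fun x => ‖x‖ ^ (-2 : ℝ) * ((1 + Λ * ‖x‖) ^ 2)⁻¹ * w x ^ 2)
    (c := fun n => 2⁻¹ * ∫ x, ‖gradient (ψ n) x‖ ^ 2 ∂μ) (fun n => hi _ (S.test n))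
    (fun n => ae_of_all _ (fun x => by positivity))
    (S.aew.mono (fun x hx => (hx.pow 2).const_mul _)) (fun n => test _ (S.test n))
    (h2.const_mul _)
  exact ⟨this.1, by linarith [this.2]⟩

end Pool.Agent.Lib.MP_a271d0_an.G.W
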