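import Pool.Agent.Lib.MP_a271d0_an.W.Wgt

/-! Pointwise and path estimates along the refined flows. -/

set_option autoImplicit false
set_option linter.unusedSectionVars false
open MeasureTheory Filter Topology Set Module
open scoped ENNReal

namespace Pool.Agent.Lib.MP_a271d0_an.G.W

variable {E : Type*} [NormedAddCommGroup E] [InnerProductSpace ℝ E] [CompleteSpace E]
  [FiniteDimensional ℝ E] [MeasurableSpace E] [BorelSpace E]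
variable {μ : Measure E} [μ.IsAddHaarMeasure] {Ω : Set E} {Λ L γ : ℝ} {Φ Φ' : ℝ → E → E}
  {χ : E → ℝ}

theorem Flow2.geo (F : Flow2 μ Ω Λ γ Φ Φ') (hΛ : 0 < Λ) (hγ0 : 0 ≤ γ) {x : E}
    (hx : Λ * ‖x‖ ≤ 1 / 5) {t : ℝ} (ht : t ∈ Icc (1:ℝ) 2) :
    t * ‖x‖ ≤ ‖Φ t x‖ * (1 + 24 * (t - 1) * Wt Λ γ (Φ t x)) ∧
      ‖Φ t x‖ ≤ t * ‖x‖ * (1 + 24 * (t - 1) * Wt Λ γ (Φ t x)) := by
  obtain ⟨g1, -⟩ := F.fl.geo hΛ hx ht
  have h1 := F.c2 x hx t ht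
  have ht1 : 0 ≤ t - 1 := by linarith [ht.1]
  have hW := Wt_mono hΛ hγ0 g1
  have hW0 := Wt_nonneg (γ := γ) hΛ (Φ t x)
  have h3 : ‖t • x‖ = t * ‖x‖ := by
    rw [norm_smul, Real.norm_eq_abs, abs_of_pos (by linarith)]
  have h4 : ‖t • x‖ ≤ ‖Φ t x‖ + ‖Φ t x - t • x‖ := by
    simpa using norm_sub_le (Φ t x) (Φ t x - t • x)
  have h5 : ‖Φ t x‖ ≤ ‖t • x‖ + ‖Φ t x - t • x‖ := by
    simpa using norm_add_le (t • x) (Φ t x - t • x)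
  have h6 : 24 * (t - 1) * Wt Λ γ x * ‖x‖ ≤ 24 * (t - 1) * Wt Λ γ (Φ t x) * ‖Φ t x‖ := by gcongr
  have h7 : ‖x‖ ≤ t * ‖x‖ := le_mul_of_one_le_left (norm_nonneg _) ht.1
  have h8 : 24 * (t - 1) * Wt Λ γ x * ‖x‖ ≤ 24 * (t - 1) * Wt Λ γ (Φ t x) * (t * ‖x‖) := by gcongr
  rw [h3] at h4 h5
  constructor <;> linarith

theorem Flow2.chi (F : Flow2 μ Ω Λ γ Φ Φ') (C : Cut L Λ χ) (hL : 0 ≤ L) (hΛ : 0 < Λ)
    (hγ0 : 0 ≤ γ) (hγ2 : γ ≤ 2) (x : E) {t : ℝ} (ht : t ∈ Icc (1:ℝ) 2) :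
    |χ x ^ 2 - χ (Φ t x) ^ 2| ≤ 1764 * L * (t - 1) * Wt Λ γ (Φ t x) := by
  have ht1 : 0 ≤ t - 1 := by linarith [ht.1]
  have hW0 := Wt_nonneg (γ := γ) hΛ (Φ t x)
  rcases le_or_gt (Λ * ‖x‖) (1 / 5) with hx | hx
  · obtain ⟨g1, g2, -⟩ := F.fl.geo hΛ hx ht
    rcases le_total (Λ * ‖Φ t x‖) (1 / 20) with hy | hy
    · rw [C.one _ hy, C.one x ((mul_le_mul_of_nonneg_left g1 hΛ.le).trans hy), sub_self, abs_zero]
      positivity
    · have h1 := F.fl.chi C hL hΛ one_pos le_rfl x ht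
      rw [Real.rpow_one, Real.rpow_one] at h1
      have h2 := far_Wt hΛ hγ0 hγ2 hy
      have h3 : 4 * L * (t - 1) * (Λ * ‖Φ t x‖) ≤ 4 * L * (t - 1) * (441 * Wt Λ γ (Φ t x)) :=
        mul_le_mul_of_nonneg_left (g2.trans h2) (by positivity)
      linarith
  · have h1 : χ x = 0 := (C.zero (by linarith)).1
    have h2 : χ (Φ t x) = 0 := by
      refine (C.zero ?_).1
      by_contra h
      exact absurd (F.fl.back x t ht (not_lt.1 h)) (not_le.2 hx)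
    rw [h1, h2]
    simp only [sub_self, abs_zero]
    positivity

variable {s₁ s r q m α : ℝ}

theorem Flow2.P1 (F : Flow2 μ Ω Λ γ Φ Φ') (C : Cut L Λ χ) (hL : 0 ≤ L) (hΛ : 0 < Λ)
    (P : Par (finrank ℝ E) s₁ s r q m α γ) (x : E) {t : ℝ} (ht : t ∈ Icc (1:ℝ) 2) (g : E) :
    χ x ^ 2 * ‖t ^ α • ContinuousLinearMap.adjoint (fderiv ℝ (Φ t) x) g‖ ^ 2
      ≤ t ^ (finrank ℝ E : ℝ) * (χ (Φ t x) ^ 2 * ‖g‖ ^ 2
        + (1764 * L + 624) * (t - 1) * (Wt Λ γ (Φ t x) * ‖g‖ ^ 2)) := by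
  have ht1 : 0 ≤ t - 1 := by linarith [ht.1]
  have ht0 : 0 < t := by linarith [ht.1]
  have hW0 := Wt_nonneg (γ := γ) hΛ (Φ t x)
  rcases le_or_gt (Λ * ‖x‖) (1 / 5) with hx | hx
  · obtain ⟨g1, -⟩ := F.fl.geo hΛ hx ht
    have h2 := Wt_mono hΛ P.γ_pos.le g1
    have h1 := F.chi C hL hΛ P.γ_pos.le P.γ_le x ht
    have hW1 := Wt_le_one hΛ P.γ_pos.le (Φ t x)
    set W := Wt Λ γ (Φ t x) with hW
    have h3 := norm_adjoint_apply_le (fderiv ℝ (Φ t) x) g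
    have h4 : ‖fderiv ℝ (Φ t) x‖ ≤ t * (1 + 8 * (t - 1) * W) :=
      (F.c3 x hx t ht).trans (by gcongr)
    have h5 : ‖t ^ α • ContinuousLinearMap.adjoint (fderiv ℝ (Φ t) x) g‖
        ≤ t ^ α * (t * (1 + 8 * (t - 1) * W) * ‖g‖) := by
      rw [norm_smul, Real.norm_eq_abs, abs_of_pos (by positivity)]
      gcongr
      exact h3.trans (by gcongr)
    have h6 := pow_le_pow_left₀ (norm_nonneg _) h5 2
    have e : (t ^ α * (t * (1 + 8 * (t - 1) * W) * ‖g‖)) ^ 2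
        = t ^ (finrank ℝ E : ℝ) * ((1 + 8 * ((t - 1) * W)) ^ 2 * ‖g‖ ^ 2) := by
      have : t ^ (finrank ℝ E : ℝ) = (t ^ α) ^ 2 * t ^ 2 := by
        rw [← Real.rpow_two, ← Real.rpow_two, ← Real.rpow_mul ht0.le, ← Real.rpow_add ht0]
        congr 1; linarith [P.α2]
      rw [this]; ring
    rw [e] at h6
    have a2 : 0 ≤ (t - 1) * W := by positivity
    have h7 : (1 + 8 * ((t - 1) * W)) ^ 2 ≤ 1 + 80 * ((t - 1) * W) := by
      have a3 : (t - 1) * W ≤ 1 := mul_le_one₀ (by linarith [ht.2]) hW0 hW1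
      nlinarith
    have h8 : χ x ^ 2 * (1 + 8 * ((t - 1) * W)) ^ 2
        ≤ χ (Φ t x) ^ 2 + (1764 * L + 624) * (t - 1) * W := by
      have a1 := mul_le_mul_of_nonneg_left h7 (sq_nonneg (χ x))
      have a4 : χ x ^ 2 * (80 * ((t - 1) * W)) ≤ 1 * (80 * ((t - 1) * W)) := by
        gcongr; exact C.sq_le x
      have a3 := le_abs_self (χ x ^ 2 - χ (Φ t x) ^ 2)
      linarith
    have h9 := mul_le_mul_of_nonneg_right h8 (sq_nonneg ‖g‖)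
    have h10 := mul_le_mul_of_nonneg_left h9 (Real.rpow_nonneg ht0.le (finrank ℝ E : ℝ))
    have h11 := mul_le_mul_of_nonneg_left h6 (sq_nonneg (χ x))
    linarith
  · rw [(C.zero (by linarith)).1]
    simp only [ne_eq, OfNat.ofNat_ne_zero, not_false_eq_true, zero_pow, zero_mul]
    positivity

theorem Flow2.P2 (F : Flow2 μ Ω Λ γ Φ Φ') (C : Cut L Λ χ) (hL : 0 ≤ L) (hΛ : 0 < Λ)
    (P : Par (finrank ℝ E) s₁ s r q m α γ) {x : E} (hx0 : x ≠ 0) {t : ℝ} (ht : t ∈ Icc (1:ℝ) 2)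
    (z : ℝ) :
    χ x ^ 2 * (|t ^ α * z| ^ r * ‖x‖ ^ (-s₁))
      ≤ t ^ (finrank ℝ E : ℝ) * (t ^ (-γ) * (χ (Φ t x) ^ 2 * (|z| ^ r * ‖Φ t x‖ ^ (-s₁)))
        + (1764 * L + 624) * (t - 1) * (Wt Λ γ (Φ t x) * (|z| ^ r * ‖Φ t x‖ ^ (-s₁)))) := by
  have ht1 : 0 ≤ t - 1 := by linarith [ht.1]
  have ht0 : 0 < t := by linarith [ht.1]
  have hW0 := Wt_nonneg (γ := γ) hΛ (Φ t x)
  have hW1 := Wt_le_one hΛ P.γ_pos.le (Φ t x)
  rcases le_or_gt (Λ * ‖x‖) (1 / 5) with hx | hx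
  · have h1 := F.chi C hL hΛ P.γ_pos.le P.γ_le x ht
    obtain ⟨g1, -⟩ := F.fl.geo hΛ hx ht
    obtain ⟨-, g2⟩ := F.geo hΛ P.γ_pos.le hx ht
    set W := Wt Λ γ (Φ t x) with hW
    have hr : 0 < ‖x‖ := norm_pos_iff.2 hx0
    have hR : 0 < ‖Φ t x‖ := by linarith
    have e : |t ^ α * z| ^ r * ‖x‖ ^ (-s₁)
        = t ^ (finrank ℝ E : ℝ) * (t ^ (-γ) * (|z| ^ r * (t * ‖x‖) ^ (-s₁))) := by
      have a1 : t ^ (α * r) = t ^ (finrank ℝ E : ℝ) * t ^ (-γ) * t ^ (-s₁) := by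
        rw [← Real.rpow_add ht0, ← Real.rpow_add ht0]
        congr 1; linarith [P.hγ]
      rw [abs_mul, abs_of_pos (by positivity), Real.mul_rpow (by positivity) (abs_nonneg z),
        Real.mul_rpow ht0.le hr.le, ← Real.rpow_mul ht0.le, a1]
      ring
    have a2 : 0 ≤ (t - 1) * W := by positivity
    have a3 : (t - 1) * W ≤ 1 := mul_le_one₀ (by linarith [ht.2]) hW0 hW1
    have h2 : (t * ‖x‖) ^ (-s₁) ≤ (1 + 624 * ((t - 1) * W)) * ‖Φ t x‖ ^ (-s₁) := by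
      have b0 : 0 < 1 + 24 * (t - 1) * W := by positivity
      have b1 : (t * ‖x‖ * (1 + 24 * (t - 1) * W)) ^ (-s₁) ≤ ‖Φ t x‖ ^ (-s₁) :=
        Real.rpow_le_rpow_of_nonpos hR g2 (by linarith [P.hs1])
      have b2 : (1 + 24 * (t - 1) * W) ^ s₁ ≤ (1 + 24 * (t - 1) * W) ^ (2:ℝ) :=
        Real.rpow_le_rpow_of_exponent_le (by linarith) (by linarith [P.hs12, P.hs2])
      rw [Real.rpow_two] at b2
      have b3 : (1 + 24 * (t - 1) * W) ^ s₁ ≤ 1 + 624 * ((t - 1) * W) := by nlinarith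
      have b4 : (t * ‖x‖) ^ (-s₁)
          = (1 + 24 * (t - 1) * W) ^ s₁ * (t * ‖x‖ * (1 + 24 * (t - 1) * W)) ^ (-s₁) := by
        rw [Real.mul_rpow (x := t * ‖x‖) (by positivity) b0.le, Real.rpow_neg b0.le]
        field_simp
      rw [b4]
      gcongr
    have h3 : t ^ (-γ) ≤ 1 := Real.rpow_le_one_of_one_le_of_nonpos ht.1 (by linarith [P.γ_pos])
    have h4 : 0 ≤ t ^ (-γ) := by positivity
    have h5 : χ x ^ 2 * (1 + 624 * ((t - 1) * W))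
        ≤ χ (Φ t x) ^ 2 + (1764 * L + 624) * (t - 1) * W := by
      have b1 : χ x ^ 2 * (624 * ((t - 1) * W)) ≤ 1 * (624 * ((t - 1) * W)) := by
        gcongr; exact C.sq_le x
      have b2 := le_abs_self (χ x ^ 2 - χ (Φ t x) ^ 2)
      linarith
    have h6 := mul_le_mul_of_nonneg_left h2 (sq_nonneg (χ x))
    have h7 := mul_le_mul_of_nonneg_right h5 (Real.rpow_nonneg hR.le (-s₁))
    have h8 : t ^ (-γ) * (χ x ^ 2 * (t * ‖x‖) ^ (-s₁))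
        ≤ t ^ (-γ) * ((χ (Φ t x) ^ 2 + (1764 * L + 624) * (t - 1) * W) * ‖Φ t x‖ ^ (-s₁)) :=
      mul_le_mul_of_nonneg_left (by linarith) h4
    have h9 : t ^ (-γ) * ((1764 * L + 624) * (t - 1) * W * ‖Φ t x‖ ^ (-s₁))
        ≤ 1 * ((1764 * L + 624) * (t - 1) * W * ‖Φ t x‖ ^ (-s₁)) := by gcongr
    have h10 : t ^ (-γ) * (χ x ^ 2 * (t * ‖x‖) ^ (-s₁))
        ≤ t ^ (-γ) * (χ (Φ t x) ^ 2 * ‖Φ t x‖ ^ (-s₁))
          + (1764 * L + 624) * (t - 1) * W * ‖Φ t x‖ ^ (-s₁) := by linarith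
    have h11 := mul_le_mul_of_nonneg_left h10
      (show 0 ≤ t ^ (finrank ℝ E : ℝ) * |z| ^ r by positivity)
    rw [e]
    linarith
  · rw [(C.zero (by linarith)).1]
    simp only [ne_eq, OfNat.ofNat_ne_zero, not_false_eq_true, zero_pow, zero_mul]
    positivity

theorem Flow2.P3 (F : Flow2 μ Ω Λ γ Φ Φ') (C : Cut L Λ χ) (hL : 0 ≤ L) (hΛ : 0 < Λ)
    (P : Par (finrank ℝ E) s₁ s r q m α γ) {x : E} (hx0 : x ≠ 0) {t : ℝ} (ht : t ∈ Icc (1:ℝ) 2)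
    (z : ℝ) :
    t ^ (finrank ℝ E : ℝ) * (χ (Φ t x) ^ 2 * (|z| ^ q * ‖Φ t x‖ ^ (-s))
        - (1764 * L + 624) * (t - 1) * (Wt Λ γ (Φ t x) * (|z| ^ q * ‖Φ t x‖ ^ (-s))))
      ≤ χ x ^ 2 * (|t ^ α * z| ^ q * ‖x‖ ^ (-s)) := by
  have ht1 : 0 ≤ t - 1 := by linarith [ht.1]
  have ht0 : 0 < t := by linarith [ht.1]
  have h1 := F.chi C hL hΛ P.γ_pos.le P.γ_le x ht
  have hW0 := Wt_nonneg (γ := γ) hΛ (Φ t x)
  have e : |t ^ α * z| ^ q * ‖x‖ ^ (-s)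
      = t ^ (finrank ℝ E : ℝ) * (|z| ^ q * (t * ‖x‖) ^ (-s)) := by
    rw [abs_mul, abs_of_pos (by positivity), Real.mul_rpow (by positivity) (abs_nonneg z),
      Real.mul_rpow ht0.le (norm_nonneg _), ← Real.rpow_mul ht0.le, P.αq, sub_eq_add_neg,
      Real.rpow_add ht0]
    ring
  have key : (χ (Φ t x) ^ 2 - (1764 * L + 624) * (t - 1) * Wt Λ γ (Φ t x)) * ‖Φ t x‖ ^ (-s)
      ≤ χ x ^ 2 * (t * ‖x‖) ^ (-s) := by
    have a3 := neg_abs_le (χ x ^ 2 - χ (Φ t x) ^ 2)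
    have a4 : 0 ≤ (t - 1) * Wt Λ γ (Φ t x) := by positivity
    rcases le_or_gt (Λ * ‖x‖) (1 / 5) with hx | hx
    · obtain ⟨g1, -⟩ := F.fl.geo hΛ hx ht
      obtain ⟨g4, -⟩ := F.geo hΛ P.γ_pos.le hx ht
      set W := Wt Λ γ (Φ t x) with hW
      have hr : 0 < ‖x‖ := norm_pos_iff.2 hx0
      have hR : 0 < ‖Φ t x‖ := by linarith
      have h3 : (‖Φ t x‖ * (1 + 24 * (t - 1) * W)) ^ (-s) ≤ (t * ‖x‖) ^ (-s) :=
        Real.rpow_le_rpow_of_nonpos (by positivity) g4 (by linarith [P.hs0])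
      rw [Real.mul_rpow hR.le (by positivity)] at h3
      have h4 := one_sub_le_rpow_neg (t := 24 * (t - 1) * W) (s := s) (by positivity) P.hs0.le
      have h5 : s * (24 * (t - 1) * W) ≤ 2 * (24 * (t - 1) * W) := by
        gcongr; exact P.hs2.le
      have h6 : ‖Φ t x‖ ^ (-s) * (1 - 48 * (t - 1) * W) ≤ (t * ‖x‖) ^ (-s) := by
        refine le_trans ?_ h3
        gcongr; linarith
      have h7 := mul_le_mul_of_nonneg_left h6 (sq_nonneg (χ x))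
      have h8 : χ (Φ t x) ^ 2 - (1764 * L + 624) * (t - 1) * W
          ≤ χ x ^ 2 * (1 - 48 * (t - 1) * W) := by
        have a2 : χ x ^ 2 * (48 * (t - 1) * W) ≤ 1 * (48 * (t - 1) * W) := by
          gcongr; exact C.sq_le x
        linarith
      have h9 := mul_le_mul_of_nonneg_right h8 (Real.rpow_nonneg hR.le (-s))
      linarith
    · have h2 : χ x = 0 := (C.zero (by linarith)).1
      rw [h2] at a3 h1 ⊢
      have h8 : χ (Φ t x) ^ 2 - (1764 * L + 624) * (t - 1) * Wt Λ γ (Φ t x) ≤ 0 := by linarith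
      have h9 := mul_le_mul_of_nonneg_right h8 (Real.rpow_nonneg (norm_nonneg (Φ t x)) (-s))
      simpa using h9
  have h9 := mul_le_mul_of_nonneg_left key
    (show 0 ≤ t ^ (finrank ℝ E : ℝ) * |z| ^ q by positivity)
  rw [e]
  linarith

theorem P4 (C : Cut L Λ χ) (hΛ : 0 < Λ) (hγ0 : 0 ≤ γ) (hγ2 : γ ≤ 2) (x : E) :
    1 - 441 * Wt Λ γ x ≤ χ x ^ 2 := by
  rcases le_total (Λ * ‖x‖) (1 / 20) with hx | hx
  · rw [C.one x hx]
    linarith [Wt_nonneg (γ := γ) hΛ x]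
  · linarith [far_Wt hΛ hγ0 hγ2 hx, sq_nonneg (χ x)]

/-- localised singular weight -/
noncomputable def wt (Λ γ : ℝ) (x : E) : ℝ :=
  if Λ * ‖x‖ ≤ 1 / 5 then Wt Λ γ x * ‖x‖ ^ (-2 : ℝ) else 0

theorem wt_nonneg (hΛ : 0 < Λ) (γ : ℝ) (x : E) : 0 ≤ wt Λ γ x := by
  have := Wt_nonneg (γ := γ) hΛ x
  unfold wt; split_ifs <;> positivity

theorem wt_le (hΛ : 0 < Λ) (γ : ℝ) (x : E) : wt Λ γ x ≤ Wt Λ γ x * ‖x‖ ^ (-2 : ℝ) := by
  have := Wt_nonneg (γ := γ) hΛ x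
  unfold wt; split_ifs
  · exact le_rfl
  · positivity

theorem wt_meas (hΛ : 0 < Λ) (hγ0 : 0 ≤ γ) : Measurable (wt Λ γ : E → ℝ) := by
  unfold wt
  refine Measurable.ite ?_ ((Wt_cont hΛ hγ0).measurable.mul (by fun_prop)) measurable_const
  exact measurableSet_le (by fun_prop) measurable_const

theorem neg_two_mul {x : E} (hx0 : x ≠ 0) : ‖x‖ ^ (-2 : ℝ) * ‖x‖ ^ 2 = 1 := by
  have hr : 0 < ‖x‖ := norm_pos_iff.2 hx0
  rw [Real.rpow_neg hr.le, Real.rpow_two]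
  exact inv_mul_cancel₀ (by positivity)

theorem one_le_wt (hΛ : 0 < Λ) (hγ0 : 0 ≤ γ) (hγ2 : γ ≤ 2) {x : E} (hx0 : x ≠ 0)
    (hx : Λ * ‖x‖ ≤ 1 / 5) : 1 ≤ 4 / Λ ^ 2 * wt Λ γ x := by
  unfold wt
  rw [if_pos hx, div_mul_eq_mul_div, le_div_iff₀ (by positivity)]
  have h1 := mul_le_mul_of_nonneg_right (sq_le_four_Wt hΛ hγ0 hγ2 (x := x) (by linarith))
    (Real.rpow_nonneg (norm_nonneg x) (-2))
  have h2 : (Λ * ‖x‖) ^ 2 * ‖x‖ ^ (-2 : ℝ) = Λ ^ 2 * (‖x‖ ^ (-2 : ℝ) * ‖x‖ ^ 2) := by ring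
  rw [h2, neg_two_mul hx0] at h1
  linarith

variable {u : E → ℝ} {G : E → E} {φ : ℕ → E → ℝ}

theorem Flow2.I5a (F : Flow2 μ Ω Λ γ Φ Φ') (hΛ : 0 < Λ) (S : H10 μ Ω u G φ) (hγ0 : 0 ≤ γ)
    {t : ℝ} (ht : t ∈ Icc (1:ℝ) 2) :
    Integrable (fun x => wt Λ γ x * (u (Φ t x) - u x) ^ 2) μ ∧
    ∫ x, wt Λ γ x * (u (Φ t x) - u x) ^ 2 ∂μ
      ≤ (t - 1) ^ 2 * (4 * ∫ x, Wt Λ γ x * ‖G x‖ ^ 2 ∂μ) := by
  have hc := Wt_cont (E := E) hΛ hγ0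
  obtain ⟨-, cA⟩ := S.cAw (m := Wt Λ γ) hc.measurable (Wt_nonneg hΛ)
    fun x _ => Wt_le_one hΛ hγ0 x
  have key := fun n => path_est μ (S.test n).c1 (Φ := Φ) (Φ' := Φ') ht.1 F.fl.one F.fl.cont
    F.fl.cont' F.fl.der (w := wt Λ γ) (m := fun y => 4 * Wt Λ γ y) (wt_meas hΛ hγ0)
    (wt_nonneg hΛ γ) (hc.measurable.const_mul 4)
    (fun x => mul_nonneg (by norm_num) (Wt_nonneg hΛ x))
    (fun x t' ht' => by
      have ht'' : t' ∈ Icc (1:ℝ) 2 := ⟨ht'.1, ht'.2.trans ht.2⟩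
      have hW := Wt_nonneg (γ := γ) hΛ x
      have hW' := Wt_nonneg (γ := γ) hΛ (Φ t' x)
      unfold wt
      split_ifs with hx
      · obtain ⟨g1, -⟩ := F.fl.geo hΛ hx ht''
        have h1 := F.fl.b1 x hx t' ht''
        have h2 : ‖Φ' t' x‖ ^ 2 ≤ (2 * ‖x‖) ^ 2 := by gcongr
        have h3 : ‖x‖ ^ (-2 : ℝ) * ‖x‖ ^ 2 ≤ 1 := by
          rcases eq_or_ne x 0 with rfl | hx0
          · simp
          · exact (neg_two_mul hx0).le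
        have h4 := mul_le_mul_of_nonneg_left h3 hW
        have h5 := Wt_mono hΛ hγ0 g1
        have h6 := mul_le_mul_of_nonneg_left h2
          (show 0 ≤ Wt Λ γ x * ‖x‖ ^ (-2 : ℝ) by positivity)
        linarith
      · rw [zero_mul]; positivity)
    (by
      have := (Wt_int hΛ hγ0 (int_grad_sq μ (S.test n).c1 (S.test n).2.1)).const_mul 4
      simpa only [mul_assoc] using this)
    (fun t' ht' H hH => by
      obtain ⟨Ψ, h1, h2, -⟩ := F.fl.hom t' ⟨ht'.1, ht'.2.trans ht.2⟩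
      simp only [← h1]
      rw [← lintegral_map hH Ψ.continuous.measurable, h2, lintegral_smul_measure, smul_eq_mul]
      refine mul_le_of_le_one_left' ?_
      rw [ENNReal.ofReal_le_one]
      exact pow_neg_le_one ht'.1)
  obtain ⟨Ψ, h1, h2, -⟩ := F.fl.hom t ht
  refine fatou_real (f := fun n x => wt Λ γ x * (φ n (Φ t x) - φ n x) ^ 2)
    (c := fun n => (t - 1) ^ 2 * (4 * ∫ x, Wt Λ γ x * ‖gradient (φ n) x‖ ^ 2 ∂μ))
    (fun n => (key n).1)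
    (fun n => ae_of_all _ (fun x => mul_nonneg (wt_nonneg hΛ _ _) (sq_nonneg _))) ?_
    (fun n => ?_) ((cA.const_mul 4).const_mul _)
  · filter_upwards [S.aew, ae_comp h2 S.aew] with x a1 a2
    rw [h1] at a2
    exact ((a2.sub a1).pow 2).const_mul _
  · have := (key n).2
    simp only [mul_assoc] at this
    rwa [integral_const_mul] at this

theorem Flow2.I5 (F : Flow2 μ Ω Λ γ Φ Φ') (hΛ : 0 < Λ) (S : H10 μ Ω u G φ) (hγ0 : 0 ≤ γ)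
    (hα : 0 ≤ α) (iH : Integrable (fun x => Wt Λ γ x * (‖x‖ ^ (-2 : ℝ) * u x ^ 2)) μ)
    {t : ℝ} (ht : t ∈ Icc (1:ℝ) 2) :
    Integrable (fun x => wt Λ γ x * (t ^ α * u (Φ t x) - u x) ^ 2) μ ∧
    ∫ x, wt Λ γ x * (t ^ α * u (Φ t x) - u x) ^ 2 ∂μ
      ≤ (t - 1) ^ 2 * (8 * ((α + 1) * 2 ^ α) ^ 2 * (∫ x, Wt Λ γ x * ‖G x‖ ^ 2 ∂μ
        + ∫ x, Wt Λ γ x * (‖x‖ ^ (-2 : ℝ) * u x ^ 2) ∂μ)) := by
  obtain ⟨i1, e1⟩ := F.I5a hΛ S hγ0 ht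
  obtain ⟨Ψ, h1, h2, -⟩ := F.fl.hom t ht
  set K := (α + 1) * 2 ^ α with hK
  have ht0 : 0 < t := by linarith [ht.1]
  have k1 : t ^ α ≤ K := by
    have : t ^ α ≤ 2 ^ α := by gcongr; exact ht.2
    have h3 : (0:ℝ) < 2 ^ α := by positivity
    rw [hK]; nlinarith
  have k2 : t ^ α - 1 ≤ K * (t - 1) := by
    have := rpow_sub_one_le (δ := t - 1) (by linarith [ht.1]) (by linarith [ht.2]) hα
    rwa [add_sub_cancel] at this
  have k3 : 0 ≤ t ^ α - 1 := by linarith [Real.one_le_rpow ht.1 hα]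
  have hum : AEMeasurable u μ := S.mw.aemeasurable
  have hum' : AEMeasurable (fun x => u (Φ t x)) μ := by
    have h3 : AEMeasurable u (Measure.map Ψ μ) := by
      rw [h2]; exact hum.smul_measure _
    simp only [← h1]
    exact h3.comp_aemeasurable Ψ.continuous.measurable.aemeasurable
  have j := (i1.const_mul (2 * K ^ 2)).add (iH.const_mul (2 * K ^ 2 * (t - 1) ^ 2))
  have pw : ∀ x, wt Λ γ x * (t ^ α * u (Φ t x) - u x) ^ 2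
      ≤ 2 * K ^ 2 * (wt Λ γ x * (u (Φ t x) - u x) ^ 2)
        + 2 * K ^ 2 * (t - 1) ^ 2 * (Wt Λ γ x * (‖x‖ ^ (-2 : ℝ) * u x ^ 2)) := by
    intro x
    have a1 : (t ^ α * u (Φ t x) - u x) ^ 2
        ≤ 2 * (t ^ α) ^ 2 * (u (Φ t x) - u x) ^ 2 + 2 * (t ^ α - 1) ^ 2 * u x ^ 2 := by
      nlinarith [sq_nonneg (t ^ α * (u (Φ t x) - u x) - (t ^ α - 1) * u x)]
    have a2 : 2 * (t ^ α) ^ 2 * (u (Φ t x) - u x) ^ 2 ≤ 2 * K ^ 2 * (u (Φ t x) - u x) ^ 2 := by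
      gcongr
    have a3 : 2 * (t ^ α - 1) ^ 2 * u x ^ 2 ≤ 2 * (K * (t - 1)) ^ 2 * u x ^ 2 := by gcongr
    have a4 := mul_le_mul_of_nonneg_left (a1.trans (add_le_add a2 a3)) (wt_nonneg hΛ γ x)
    have a5 : wt Λ γ x * (2 * (K * (t - 1)) ^ 2 * u x ^ 2)
        ≤ Wt Λ γ x * ‖x‖ ^ (-2 : ℝ) * (2 * (K * (t - 1)) ^ 2 * u x ^ 2) := by
      gcongr; exact wt_le hΛ _ _
    linarith
  have hm : ∀ f : E → ℝ, AEMeasurable f μ →
      AEMeasurable (fun x => wt Λ γ x * (t ^ α * f x - u x) ^ 2) μ := fun f hf => by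
    have := wt_meas (E := E) hΛ hγ0
    fun_prop
  have i0 : Integrable (fun x => wt Λ γ x * (t ^ α * u (Φ t x) - u x) ^ 2) μ := by
    refine j.mono' (hm _ hum').aestronglyMeasurable (ae_of_all _ (fun x => ?_))
    rw [Real.norm_eq_abs, abs_of_nonneg (mul_nonneg (wt_nonneg hΛ _ _) (sq_nonneg _))]
    exact pw x
  refine ⟨i0, ?_⟩
  have := integral_mono i0 j pw
  simp only [Pi.add_apply] at this
  rw [integral_add (i1.const_mul _) (iH.const_mul _), integral_const_mul,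
    integral_const_mul] at this
  have a1 := mul_le_mul_of_nonneg_left e1 (show 0 ≤ 2 * K ^ 2 by positivity)
  have a2 : 0 ≤ K ^ 2 * (t - 1) ^ 2 * ∫ x, Wt Λ γ x * (‖x‖ ^ (-2 : ℝ) * u x ^ 2) ∂μ :=
    mul_nonneg (by positivity)
      (integral_nonneg (fun x => mul_nonneg (Wt_nonneg hΛ x) (by positivity)))
  linarith

theorem cross (C : Cut L Λ χ) (hL : 0 ≤ L) (hΛ : 0 < Λ) (hγ0 : 0 ≤ γ) (hγ2 : γ ≤ 2) {x : E}
    (hx0 : x ≠ 0) {δ : ℝ} (hδ : 0 < δ) (h : ℝ) (g : E) :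
    2 * (χ x * h) * inner ℝ g (gradient χ x)
      ≤ 100 * L * (δ * (Wt Λ γ x * ‖g‖ ^ 2) + δ⁻¹ * (wt Λ γ x * h ^ 2)) := by
  have hr : 0 < ‖x‖ := norm_pos_iff.2 hx0
  have hW := Wt_nonneg (γ := γ) hΛ x
  have hw := wt_nonneg hΛ γ x
  rcases lt_or_ge (Λ * ‖x‖) (1 / 20) with hy | hy
  · have h1 : χ =ᶠ[𝓝 x] fun _ => 1 := by
      have : ∀ᶠ y in 𝓝 x, Λ * ‖y‖ < 1 / 20 :=
        (by fun_prop : Continuous fun y : E => Λ * ‖y‖).continuousAt.eventually_lt_const hy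
      filter_upwards [this] with y hy' using C.one y hy'.le
    rw [h1.gradient_eq, gradient_fun_const, inner_zero_right, mul_zero]
    positivity
  rcases le_or_gt (Λ * ‖x‖) (1 / 5) with hx | hx
  · have h1 := abs_real_inner_le_norm g (gradient χ x)
    have h2 : |2 * (χ x * h) * inner ℝ g (gradient χ x)| ≤ 2 * (1 * |h|) * (‖g‖ * (L * Λ)) := by
      rw [abs_mul, abs_mul, abs_mul, abs_of_nonneg (C.nonneg x), abs_two]
      gcongr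
      · exact C.le_one x
      · exact h1.trans (by gcongr; exact C.grad x)
    have h3 := far_Wt hΛ hγ0 hγ2 hy
    have e := neg_two_mul hx0
    have h4 : Λ ≤ 100 * (Wt Λ γ x * (‖x‖ ^ (-2 : ℝ) * ‖x‖)) := by
      apply le_of_mul_le_mul_right _ hr
      have : 100 * (Wt Λ γ x * (‖x‖ ^ (-2 : ℝ) * ‖x‖)) * ‖x‖
          = 100 * Wt Λ γ x * (‖x‖ ^ (-2 : ℝ) * ‖x‖ ^ 2) := by ring
      rw [this, e]
      linarith
    have h5 : 2 * (1 * |h|) * (‖g‖ * (L * Λ))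
        ≤ 2 * (1 * |h|) * (‖g‖ * (L * (100 * (Wt Λ γ x * (‖x‖ ^ (-2 : ℝ) * ‖x‖))))) := by gcongr
    have h6 : 2 * (|h| * (‖x‖ * ‖g‖)) ≤ δ * (‖x‖ * ‖g‖) ^ 2 + δ⁻¹ * h ^ 2 := by
      have b0 : 0 ≤ δ⁻¹ * (δ * (‖x‖ * ‖g‖) - |h|) ^ 2 := by positivity
      have b1 : δ⁻¹ * (δ * (‖x‖ * ‖g‖) - |h|) ^ 2
          = δ * (‖x‖ * ‖g‖) ^ 2 + δ⁻¹ * |h| ^ 2 - 2 * (|h| * (‖x‖ * ‖g‖)) := by
        field_simp; ring
      rw [sq_abs] at b1
      linarith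
    have h7 := mul_le_mul_of_nonneg_left h6
      (show 0 ≤ 100 * L * (Wt Λ γ x * ‖x‖ ^ (-2 : ℝ)) by positivity)
    have h8 : 100 * L * (Wt Λ γ x * ‖x‖ ^ (-2 : ℝ)) * (δ * (‖x‖ * ‖g‖) ^ 2)
        = 100 * L * (δ * (Wt Λ γ x * ‖g‖ ^ 2)) * (‖x‖ ^ (-2 : ℝ) * ‖x‖ ^ 2) := by ring
    rw [mul_add, h8, e] at h7
    unfold wt
    rw [if_pos hx]
    linarith [le_abs_self (2 * (χ x * h) * inner ℝ g (gradient χ x))]
  · rw [(C.zero (by linarith)).1]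
    simp only [zero_mul, mul_zero]
    positivity

theorem pk (C : Cut L Λ χ) (hΛ : 0 < Λ) (hγ0 : 0 ≤ γ) (hγ2 : γ ≤ 2) {x : E} (hx0 : x ≠ 0)
    (h : ℝ) (g : E) :
    (χ x * h) ^ 2 ≤ (4 / Λ ^ 2) * (wt Λ γ x * h ^ 2) ∧
    ‖χ x • g + h • gradient χ x‖ ^ 2
      ≤ 2 * (χ x ^ 2 * ‖g‖ ^ 2) + 2 * (L * Λ) ^ 2 * (4 / Λ ^ 2) * (wt Λ γ x * h ^ 2) := by
  have hw := wt_nonneg hΛ γ x
  rcases le_or_gt (Λ * ‖x‖) (1 / 5) with hx | hx
  · have h1 := mul_le_mul_of_nonneg_right (one_le_wt hΛ hγ0 hγ2 hx0 hx) (sq_nonneg h)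
    constructor
    · have h2 := mul_le_mul_of_nonneg_right (C.sq_le x) (sq_nonneg h)
      linarith
    · have h2 := norm_add_sq_le (χ x • g) (h • gradient χ x)
      rw [norm_smul, norm_smul, mul_pow, mul_pow, Real.norm_eq_abs, Real.norm_eq_abs, sq_abs,
        sq_abs] at h2
      have h3 : ‖gradient χ x‖ ^ 2 ≤ (L * Λ) ^ 2 := by
        gcongr; exact C.grad x
      have h4 := mul_le_mul_of_nonneg_left h3 (sq_nonneg h)
      have h5 := mul_le_mul_of_nonneg_left h1 (sq_nonneg (L * Λ))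
      linarith
  · rw [(C.zero (by linarith)).1, (C.zero (by linarith)).2]
    simp only [zero_mul, zero_smul, smul_zero, add_zero, norm_zero, ne_eq, OfNat.ofNat_ne_zero,
      not_false_eq_true, zero_pow, mul_zero, zero_add]
    constructor <;> positivity

theorem point_main (P : Par (finrank ℝ E) s₁ s r q m α γ) {a u v b c l : ℝ} (hb : 0 ≤ b)
    (hc : 0 ≤ c) (hl : 0 ≤ l) (g g' d : E) :
    inner ℝ g (a • (a • (g' - g) + (v - u) • d) + (a * (v - u)) • d)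
        + l * (|u| ^ (r - 2) * u * (a * (a * (v - u))) * b)
        - |u| ^ (q - 2) * u * (a * (a * (v - u))) * c
      ≤ (a ^ 2 * ‖g'‖ ^ 2 - a ^ 2 * ‖g‖ ^ 2 - a ^ 2 * ‖g' - g‖ ^ 2) / 2
        + 2 * (a * (v - u)) * inner ℝ g d
        + l * ((a ^ 2 * (|v| ^ r * b) - a ^ 2 * (|u| ^ r * b)) / r)
        - (a ^ 2 * (|v| ^ q * c) - a ^ 2 * (|u| ^ q * c)) / q
        + (q - 1) * (|u| ^ (q - 2) * c * (a * (v - u)) ^ 2
          + |v| ^ (q - 2) * c * (a * (v - u)) ^ 2) := by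
  have hr := P.r_gt
  have hq := P.q_gt
  have e1 : inner ℝ g (a • (a • (g' - g) + (v - u) • d) + (a * (v - u)) • d)
      = (a ^ 2 * ‖g'‖ ^ 2 - a ^ 2 * ‖g‖ ^ 2 - a ^ 2 * ‖g' - g‖ ^ 2) / 2
        + 2 * (a * (v - u)) * inner ℝ g d := by
    rw [norm_sub_sq_real, real_inner_comm]
    simp only [inner_add_left, inner_smul_left, inner_sub_left, real_inner_self_eq_norm_sq,
      conj_trivial, real_inner_comm d g]
    ring
  have e2 : |u| ^ (r - 2) * u * (v - u) ≤ (|v| ^ r - |u| ^ r) / r := by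
    have := convex_signed (u := u) (v := v) hr.le
    rw [le_div_iff₀ (by linarith)]; linarith
  have e3 := second_signed (u := u) (v := v) hq.le
  have e4 := mul_le_mul_of_nonneg_left e2 (show 0 ≤ l * (a ^ 2 * b) by positivity)
  have e5 := mul_le_mul_of_nonneg_left e3 (mul_nonneg (sq_nonneg a) hc)
  rw [e1]
  have e6 : l * ((a ^ 2 * (|v| ^ r * b) - a ^ 2 * (|u| ^ r * b)) / r)
      = l * (a ^ 2 * b) * ((|v| ^ r - |u| ^ r) / r) := by ring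
  have e7 : (a ^ 2 * (|v| ^ q * c) - a ^ 2 * (|u| ^ q * c)) / q
      = a ^ 2 * c * ((|v| ^ q - |u| ^ q) / q) := by ring
  rw [e6, e7]
  linarith

end Pool.Agent.Lib.MP_a271d0_an.G.W
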