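import Pool.Agent.Lib.MP_a271d0_an.W.Defs

/-! Exponents, weak solutions of any sign, and the basic integrability facts. -/

set_option autoImplicit false
set_option linter.unusedSectionVars false
open MeasureTheory Filter Topology Set Module
open scoped ENNReal

namespace Pool.Agent.Lib.MP_a271d0_an.G.W

theorem abs_pow_mul {z r : ℝ} (hr : 2 ≤ r) : |z| ^ (r - 2) * |z| = |z| ^ (r - 1) := by
  rw [← Real.rpow_add_one' (abs_nonneg z) (by linarith)]; congr 1; ring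

theorem abs_pow_sq {z r : ℝ} (hr : 2 ≤ r) : |z| ^ (r - 2) * z * z = |z| ^ r := by
  have : |z| ^ r = |z| ^ (r - 2) * |z| ^ 2 := by
    rw [← Real.rpow_two, ← Real.rpow_add' (abs_nonneg z) (by linarith)]; congr 1; ring
  rw [this, sq_abs]; ring

theorem abs_signed {z r : ℝ} (hr : 2 ≤ r) : |(|z| ^ (r - 2) * z)| = |z| ^ (r - 1) := by
  rw [abs_mul, abs_of_nonneg (Real.rpow_nonneg (abs_nonneg z) _), abs_pow_mul hr]

theorem convex_signed {u v r : ℝ} (hr : 2 ≤ r) :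
    r * (|u| ^ (r - 2) * u * (v - u)) ≤ |v| ^ r - |u| ^ r := by
  have h1 := convex_rpow (abs_nonneg u) (abs_nonneg v) (r := r) (by linarith)
  have h2 : |u| ^ (r - 2) * u * v ≤ |u| ^ (r - 1) * |v| := by
    rw [← abs_signed hr, ← abs_mul]; exact le_abs_self _
  have h3 : |u| ^ (r - 1) * |u| = |u| ^ r := by
    rw [← Real.rpow_add_one' (abs_nonneg u) (by linarith)]; congr 1; ring
  have h4 := abs_pow_sq (z := u) hr
  have h5 := mul_le_mul_of_nonneg_left h2 (show 0 ≤ r by linarith)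
  have h6 : r * (|u| ^ (r - 1) * |u|) = r * (|u| ^ (r - 2) * u * u) := by rw [h3, h4]
  linarith

theorem second_signed {u v q : ℝ} (hq : 2 ≤ q) :
    (|v| ^ q - |u| ^ q) / q - |u| ^ (q - 2) * u * (v - u)
      ≤ (q - 1) * (|u| ^ (q - 2) + |v| ^ (q - 2)) * (v - u) ^ 2 := by
  have hq0 : 0 < q := by linarith
  have same : ∀ a b : ℝ, 0 ≤ a → 0 ≤ b → (|b| ^ q - |a| ^ q) / q - |a| ^ (q - 2) * a * (b - a)
      ≤ (q - 1) * (|a| ^ (q - 2) + |b| ^ (q - 2)) * (b - a) ^ 2 := by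
    intro a b ha hb
    have h := second_order ha hb hq
    have e := abs_pow_mul (z := a) hq
    rw [abs_of_nonneg ha] at e
    rw [abs_of_nonneg ha, abs_of_nonneg hb, e]
    exact h
  have opp : ∀ a b : ℝ, a * b ≤ 0 → (|b| ^ q - |a| ^ q) / q - |a| ^ (q - 2) * a * (b - a)
      ≤ (q - 1) * (|a| ^ (q - 2) + |b| ^ (q - 2)) * (b - a) ^ 2 := by
    intro a b hab
    have h1 := convex_signed (u := b) (v := a) hq
    have h2 : (|b| ^ q - |a| ^ q) / q ≤ |b| ^ (q - 2) * b * (b - a) := by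
      rw [div_le_iff₀ hq0]; linarith
    have pa : 0 ≤ |a| ^ (q - 2) := by positivity
    have pb : 0 ≤ |b| ^ (q - 2) := by positivity
    have h3 : b * (b - a) ≤ (b - a) ^ 2 := by nlinarith [sq_nonneg a]
    have h4 : -(a * (b - a)) ≤ (b - a) ^ 2 := by nlinarith [sq_nonneg b]
    have h5 := mul_le_mul_of_nonneg_left h3 pb
    have h6 := mul_le_mul_of_nonneg_left h4 pa
    have h7 : 0 ≤ (q - 2) * ((|a| ^ (q - 2) + |b| ^ (q - 2)) * (b - a) ^ 2) :=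
      mul_nonneg (by linarith) (by positivity)
    linarith
  rcases le_total 0 u with hu | hu <;> rcases le_total 0 v with hv | hv
  · exact same u v hu hv
  · exact opp u v (mul_nonpos_of_nonneg_of_nonpos hu hv)
  · exact opp u v (mul_nonpos_of_nonpos_of_nonneg hu hv)
  · have := same (-u) (-v) (by linarith) (by linarith)
    rw [abs_neg, abs_neg] at this
    linarith

/-- the exponents of the two-weight family -/
structure Par (n s₁ s r q m α γ : ℝ) : Prop where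
  hn : 3 ≤ n
  hs1 : 0 ≤ s₁
  hs12 : s₁ < s
  hs2 : s < 2
  hm : m = 2 * n / (n - 2)
  hq : q = 2 * (n - s) / (n - 2)
  hα : α = (n - 2) / 2
  hγ : γ = n - s₁ - r * α
  hqr : q < r
  γ_pos : 0 < γ

namespace Par
variable {n s₁ s r q m α γ : ℝ} (P : Par n s₁ s r q m α γ)
include P

theorem hs0 : 0 < s := by linarith [P.hs1, P.hs12]
theorem α_pos : 0 < α := by rw [P.hα]; linarith [P.hn]
theorem αm : α * m = n := by
  have : n - 2 ≠ 0 := by linarith [P.hn]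
  rw [P.hα, P.hm]; field_simp
theorem αq : α * q = n - s := by
  have : n - 2 ≠ 0 := by linarith [P.hn]
  rw [P.hα, P.hq]; field_simp
theorem α2 : 2 * α = n - 2 := by rw [P.hα]; ring
theorem q_gt : 2 < q := by
  have h1 := P.αq; have h2 := P.α2; have h3 := P.α_pos; have h4 := P.hs2
  by_contra h
  push Not at h
  nlinarith
theorem r_gt : 2 < r := by linarith [P.q_gt, P.hqr]
theorem r_lt : r < m := by
  have h1 := P.αm; have h3 := P.α_pos; have h4 := P.γ_pos; have h5 := P.hγ; have h6 := P.hs1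
  by_contra h
  push Not at h
  nlinarith
theorem m_gt : 2 < m := by linarith [P.r_gt, P.r_lt]
theorem γ_lt : γ + s₁ < s := by
  have h1 := P.αq; have h3 := P.α_pos; have h4 := P.hqr
  rw [P.hγ]; nlinarith
theorem γ_le : γ ≤ 2 := by linarith [P.γ_lt, P.hs1, P.hs2]
theorem e1 : (q - 2) * (2 / (2 - s)) = m - 2 := by
  have h1 := P.αq; have h2 := P.α2; have h3 := P.α_pos; have h4 := P.hs2; have h5 := P.αm
  have h6 : 2 - s ≠ 0 := by linarith
  apply mul_left_cancel₀ h3.ne'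
  have : α * (q - 2) = 2 - s := by linarith
  rw [← mul_assoc, this]; field_simp; linarith
theorem e2 : (q - 2) * ((2 - γ - s₁) / (2 - γ - s₁ - (s - γ - s₁))) = r - 2 := by
  have h1 := P.αq; have h2 := P.α2; have h3 := P.α_pos; have h4 := P.hs2; have h5 := P.hγ
  have h6 : 2 - s ≠ 0 := by linarith
  have h7 : 2 - γ - s₁ - (s - γ - s₁) = 2 - s := by ring
  apply mul_left_cancel₀ h3.ne'
  have : α * (q - 2) = 2 - s := by linarith
  rw [← mul_assoc, this, h7]; field_simp; linarith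

theorem pw2' {z ρ κ : ℝ} (hz : 0 ≤ z) (hr : 0 ≤ ρ) (hκ : 0 < κ) :
    z ^ (q - 2) * ρ ^ (-s) ≤ κ * ρ ^ (-2 : ℝ) + κ ^ (-(s / (2 - s))) * z ^ (m - 2) := by
  have h := young_w (a := z ^ (q - 2)) (y := ρ⁻¹) (s := s) (t := 2) (κ := κ) (by positivity)
    (by positivity) P.hs0.le P.hs2 hκ
  rwa [← Real.rpow_mul hz, P.e1, Real.inv_rpow hr, Real.inv_rpow hr, ← Real.rpow_neg hr,
    ← Real.rpow_neg hr] at h

theorem pw2 {z ρ : ℝ} (hz : 0 ≤ z) (hr : 0 ≤ ρ) :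
    z ^ q * ρ ^ (-s) ≤ ρ ^ (-2 : ℝ) * z ^ 2 + z ^ m := by
  have h := P.pw2' hz hr one_pos
  rw [Real.one_rpow, one_mul, one_mul] at h
  have a1 : z ^ q = z ^ 2 * z ^ (q - 2) := by
    rw [← Real.rpow_two, ← Real.rpow_add' hz (by linarith [P.q_gt])]; congr 1; ring
  have a2 : z ^ m = z ^ 2 * z ^ (m - 2) := by
    rw [← Real.rpow_two, ← Real.rpow_add' hz (by linarith [P.m_gt])]; congr 1; ring
  rw [a1, a2]
  have := mul_le_mul_of_nonneg_left h (sq_nonneg z)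
  linarith

theorem pw1 {z ρ : ℝ} (hz : 0 ≤ z) (hr : 0 ≤ ρ) :
    z ^ r * ρ ^ (-s₁) ≤ z ^ 2 + z ^ m + ρ ^ (-2 : ℝ) * z ^ 2 := by
  have h1 := P.αm; have h2 := P.α2; have h3 := P.α_pos; have h4 := P.γ_pos; have h5 := P.hγ
  have h6 := P.hs1; have h7 := P.hs12; have h8 := P.hs2; have h9 := P.r_gt
  have hd : 0 < 2 - s₁ := by linarith
  have h := young_w (a := z ^ (r - 2)) (y := ρ⁻¹) (s := s₁) (t := 2) (κ := 1) (by positivity)
    (by positivity) h6 (by linarith) one_pos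
  rw [← Real.rpow_mul hz, Real.inv_rpow hr, Real.inv_rpow hr, ← Real.rpow_neg hr,
    ← Real.rpow_neg hr, Real.one_rpow, one_mul, one_mul] at h
  have hk : 0 ≤ (r - 2) * (2 / (2 - s₁)) := mul_nonneg (by linarith) (by positivity)
  have hk2 : 2 + (r - 2) * (2 / (2 - s₁)) ≤ m := by
    have a1 : (r - 2) * (2 / (2 - s₁)) ≤ m - 2 := by
      rw [← mul_div_assoc, div_le_iff₀ hd]
      apply le_of_mul_le_mul_left _ h3
      nlinarith
    linarith
  have a1 : z ^ r = z ^ 2 * z ^ (r - 2) := by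
    rw [← Real.rpow_two, ← Real.rpow_add' hz (by linarith)]; congr 1; ring
  have a2 : z ^ 2 * z ^ ((r - 2) * (2 / (2 - s₁))) = z ^ (2 + (r - 2) * (2 / (2 - s₁))) := by
    rw [← Real.rpow_two, ← Real.rpow_add' hz (by linarith)]
  have a3 := rpow_interp hz (r := 2 + (r - 2) * (2 / (2 - s₁))) (by linarith) hk2
  have a4 := mul_le_mul_of_nonneg_left h (sq_nonneg z)
  rw [a1]
  linarith

theorem pw3 {z ρ κ : ℝ} (hz : 0 ≤ z) (hr : 0 < ρ) (hκ : 0 < κ) :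
    ρ ^ γ * (z ^ q * ρ ^ (-s)) ≤ κ * (ρ ^ γ * (ρ ^ (-2 : ℝ) * z ^ 2))
      + κ ^ (-((s - γ - s₁) / (2 - γ - s₁ - (s - γ - s₁)))) * (z ^ r * ρ ^ (-s₁)) := by
  have h := young_w (a := z ^ (q - 2)) (y := ρ⁻¹) (s := s - γ - s₁) (t := 2 - γ - s₁) (κ := κ)
    (by positivity) (by positivity) (by linarith [P.γ_lt]) (by linarith [P.hs2]) hκ
  rw [← Real.rpow_mul hz, P.e2, Real.inv_rpow hr.le, Real.inv_rpow hr.le, ← Real.rpow_neg hr.le,
    ← Real.rpow_neg hr.le] at h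
  have a1 : z ^ q = z ^ 2 * z ^ (q - 2) := by
    rw [← Real.rpow_two, ← Real.rpow_add' hz (by linarith [P.q_gt])]; congr 1; ring
  have a2 : z ^ r = z ^ 2 * z ^ (r - 2) := by
    rw [← Real.rpow_two, ← Real.rpow_add' hz (by linarith [P.r_gt])]; congr 1; ring
  have a3 : ρ ^ γ * ρ ^ (-s) = ρ ^ (-(s - γ - s₁)) * ρ ^ (-s₁) := by
    rw [← Real.rpow_add hr, ← Real.rpow_add hr]; congr 1; ring
  have a4 : ρ ^ γ * ρ ^ (-2 : ℝ) = ρ ^ (-(2 - γ - s₁)) * ρ ^ (-s₁) := by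
    rw [← Real.rpow_add hr, ← Real.rpow_add hr]; congr 1; ring
  have a5 := mul_le_mul_of_nonneg_left h (show 0 ≤ z ^ 2 * ρ ^ (-s₁) by positivity)
  have a6 : ρ ^ γ * (z ^ q * ρ ^ (-s)) = z ^ q * (ρ ^ γ * ρ ^ (-s)) := by ring
  have a7 : ρ ^ γ * (ρ ^ (-2 : ℝ) * z ^ 2) = z ^ 2 * (ρ ^ γ * ρ ^ (-2 : ℝ)) := by ring
  rw [a6, a7, a3, a4, a1, a2]
  linarith

end Par

variable {E : Type*} [NormedAddCommGroup E] [InnerProductSpace ℝ E] [CompleteSpace E]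
  [FiniteDimensional ℝ E] [MeasurableSpace E] [BorelSpace E]

/-- weak solution of any sign -/
structure Sol (μ : Measure E) (Ω : Set E) (u : E → ℝ) (G : E → E) (φ : ℕ → E → ℝ)
    (l s₁ s r q : ℝ) : Prop where
  h : H10 μ Ω u G φ
  eq : ∀ ψ, IsTest Ω ψ →
    ∫ x, (inner ℝ (G x) (gradient ψ x) + l * (|u x| ^ (r - 2) * u x * ψ x * ‖x‖ ^ (-s₁))
      - |u x| ^ (q - 2) * u x * ψ x * ‖x‖ ^ (-s)) ∂μ = 0

variable {μ : Measure E} [μ.IsAddHaarMeasure]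
variable {Ω : Set E} {u : E → ℝ} {G : E → E} {φ : ℕ → E → ℝ} {l s₁ s r q m α γ : ℝ}

theorem Par.fr (P : Par (finrank ℝ E) s₁ s r q m α γ) : 3 ≤ finrank ℝ E := by
  exact_mod_cast P.hn

theorem Par.NN1 (P : Par (finrank ℝ E) s₁ s r q m α γ) (z : ℝ) (x : E) :
    |z| ^ r * ‖x‖ ^ (-s₁) ≤ NN m z x := by
  have h := P.pw1 (abs_nonneg z) (norm_nonneg x)
  rw [sq_abs] at h
  unfold NN; linarith

theorem Par.NN2 (P : Par (finrank ℝ E) s₁ s r q m α γ) (z : ℝ) (x : E) :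
    |z| ^ q * ‖x‖ ^ (-s) ≤ NN m z x := by
  have h := P.pw2 (abs_nonneg z) (norm_nonneg x)
  rw [sq_abs] at h
  have : 0 ≤ z ^ 2 := by positivity
  unfold NN; linarith

theorem intNN {w : E → ℝ} {Gw : E → E} {ψ : ℕ → E → ℝ} (S : H10 μ Ω w Gw ψ)
    (P : Par (finrank ℝ E) s₁ s r q m α γ) (h0 : (0:E) ∉ Ω) :
    Integrable (fun x => NN m (w x) x) μ ∧
    (∀ n, Integrable (fun x => NN m (ψ n x - w x) x) μ) ∧
    Tendsto (fun n => ∫ x, NN m (ψ n x - w x) x ∂μ) atTop (𝓝 0) := by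
  obtain ⟨a1, a2, a3⟩ := S.cS P.fr P.hm
  obtain ⟨b2, b3⟩ := S.cH h0 P.fr
  refine ⟨(S.iw.add a1).add (S.hardy0 h0 P.fr).1,
    fun n => ((S.idw n).add (a2 n)).add (b2 n), ?_⟩
  have e : ∀ n, ∫ x, NN m (ψ n x - w x) x ∂μ = ∫ x, (ψ n x - w x) ^ 2 ∂μ
      + ∫ x, |ψ n x - w x| ^ m ∂μ + ∫ x, ‖x‖ ^ (-2 : ℝ) * (ψ n x - w x) ^ 2 ∂μ := by
    intro n
    have j : Integrable (fun x => (ψ n x - w x) ^ 2 + |ψ n x - w x| ^ m) μ := (S.idw n).add (a2 n)
    unfold NN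
    rw [integral_add j (b2 n), integral_add (S.idw n) (a2 n)]
  simp only [e]
  simpa using (S.cw.add a3).add b3

theorem term_le {z w t k c a b d : ℝ} (hk : 2 ≤ k) (hc : 0 ≤ c) (h1 : |z| ^ k * c ≤ a)
    (h2 : |w| ^ k * c ≤ b) (h3 : |t - w| ^ k * c ≤ d) :
    |(|z| ^ (k - 2) * z * t * c)| ≤ 2 * a + b + d := by
  have ht : |t| ≤ |w| + |t - w| := by
    simpa using abs_add_le w (t - w)
  rw [abs_mul, abs_mul, abs_signed hk, abs_of_nonneg hc]
  have y1 := young_crude (abs_nonneg z) (abs_nonneg w) (r := k - 1) (by linarith)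
  have y2 := young_crude (abs_nonneg z) (abs_nonneg (t - w)) (r := k - 1) (by linarith)
  rw [sub_add_cancel] at y1 y2
  have y3 : |z| ^ (k - 1) * |t| ≤ |z| ^ (k - 1) * (|w| + |t - w|) := by gcongr
  have y4 : |z| ^ (k - 1) * |t| ≤ 2 * |z| ^ k + |w| ^ k + |t - w| ^ k := by linarith
  have y5 := mul_le_mul_of_nonneg_right y4 hc
  linarith

theorem Sol.eq_limit (S : Sol μ Ω u G φ l s₁ s r q) (P : Par (finrank ℝ E) s₁ s r q m α γ)
    (hl : 0 ≤ l) (h0 : (0:E) ∉ Ω) {w : E → ℝ} {Gw : E → E} {ψ : ℕ → E → ℝ}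
    (T : H10 μ Ω w Gw ψ) :
    Integrable (fun x => inner ℝ (G x) (Gw x) + l * (|u x| ^ (r - 2) * u x * w x * ‖x‖ ^ (-s₁))
      - |u x| ^ (q - 2) * u x * w x * ‖x‖ ^ (-s)) μ ∧
    ∫ x, (inner ℝ (G x) (Gw x) + l * (|u x| ^ (r - 2) * u x * w x * ‖x‖ ^ (-s₁))
      - |u x| ^ (q - 2) * u x * w x * ‖x‖ ^ (-s)) ∂μ = 0 := by
  obtain ⟨u1, -, -⟩ := intNN S.h P h0
  obtain ⟨w1, w2, w3⟩ := intNN T P h0
  have hum : AEMeasurable u μ := S.h.mw.aemeasurable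
  have hGm := S.h.mG
  have meas : ∀ (f : E → ℝ) (g : E → E), AEStronglyMeasurable f μ → AEStronglyMeasurable g μ →
      AEStronglyMeasurable (fun x => inner ℝ (G x) (g x)
        + l * (|u x| ^ (r - 2) * u x * f x * ‖x‖ ^ (-s₁))
        - |u x| ^ (q - 2) * u x * f x * ‖x‖ ^ (-s)) μ := by
    intro f g hf hg
    have hf' := hf.aemeasurable
    refine ((hGm.inner hg).add ?_).sub ?_
    · apply AEMeasurable.aestronglyMeasurable; fun_prop
    · apply AEMeasurable.aestronglyMeasurable; fun_prop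
  have bnd : ∀ (x : E) (t : ℝ) (y : E),
      |inner ℝ (G x) y + l * (|u x| ^ (r - 2) * u x * t * ‖x‖ ^ (-s₁))
        - |u x| ^ (q - 2) * u x * t * ‖x‖ ^ (-s)|
        ≤ (‖G x‖ ^ 2 + ‖Gw x‖ ^ 2 + 2 * (l + 1) * NN m (u x) x + (l + 1) * NN m (w x) x)
          + (‖y - Gw x‖ ^ 2 + (l + 1) * NN m (t - w x) x) := by
    intro x t y
    have h3 : |inner ℝ (G x) y| ≤ ‖G x‖ ^ 2 + ‖Gw x‖ ^ 2 + ‖y - Gw x‖ ^ 2 := by
      have h4 := abs_real_inner_le_norm (G x) y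
      have h5 : ‖y‖ ≤ ‖Gw x‖ + ‖y - Gw x‖ := by
        simpa using norm_add_le (Gw x) (y - Gw x)
      have h6 : ‖G x‖ * ‖y‖ ≤ ‖G x‖ * (‖Gw x‖ + ‖y - Gw x‖) := by gcongr
      nlinarith [sq_nonneg (‖G x‖ - ‖y - Gw x‖), sq_nonneg (‖G x‖ - ‖Gw x‖),
        sq_nonneg ‖Gw x‖, sq_nonneg ‖y - Gw x‖]
    have h4 := term_le P.r_gt.le (Real.rpow_nonneg (norm_nonneg x) _) (P.NN1 (u x) x)
      (P.NN1 (w x) x) (P.NN1 (t - w x) x)
    have h5 := term_le P.q_gt.le (Real.rpow_nonneg (norm_nonneg x) _) (P.NN2 (u x) x)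
      (P.NN2 (w x) x) (P.NN2 (t - w x) x)
    have h6 := mul_le_mul_of_nonneg_left h4 hl
    have t1 := abs_sub (inner ℝ (G x) y + l * (|u x| ^ (r - 2) * u x * t * ‖x‖ ^ (-s₁)))
      (|u x| ^ (q - 2) * u x * t * ‖x‖ ^ (-s))
    have t2 := abs_add_le (inner ℝ (G x) y) (l * (|u x| ^ (r - 2) * u x * t * ‖x‖ ^ (-s₁)))
    rw [abs_mul l, abs_of_nonneg hl] at t2
    linarith
  have ha : Integrable (fun x => ‖G x‖ ^ 2 + ‖Gw x‖ ^ 2 + 2 * (l + 1) * NN m (u x) x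
      + (l + 1) * NN m (w x) x) μ :=
    ((S.h.iG.add T.iG).add (u1.const_mul _)).add (w1.const_mul _)
  have hlim0 : ∀ᵐ x ∂μ, |inner ℝ (G x) (Gw x)
      + l * (|u x| ^ (r - 2) * u x * w x * ‖x‖ ^ (-s₁))
      - |u x| ^ (q - 2) * u x * w x * ‖x‖ ^ (-s)|
      ≤ ‖G x‖ ^ 2 + ‖Gw x‖ ^ 2 + 2 * (l + 1) * NN m (u x) x + (l + 1) * NN m (w x) x := by
    refine ae_of_all _ fun x => ?_
    have := bnd x (w x) (Gw x)
    have e : NN m 0 x = 0 := by
      unfold NN; simp [show m ≠ 0 by linarith [P.m_gt]]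
    rw [sub_self, sub_self, e, norm_zero] at this
    simpa using this
  refine ⟨ha.mono' (meas w Gw T.mw T.mG) hlim0, ?_⟩
  have hconv := gdct (μ := μ)
    (f := fun n x => inner ℝ (G x) (gradient (ψ n) x)
      + l * (|u x| ^ (r - 2) * u x * ψ n x * ‖x‖ ^ (-s₁))
      - |u x| ^ (q - 2) * u x * ψ n x * ‖x‖ ^ (-s))
    (g := fun x => inner ℝ (G x) (Gw x) + l * (|u x| ^ (r - 2) * u x * w x * ‖x‖ ^ (-s₁))
      - |u x| ^ (q - 2) * u x * w x * ‖x‖ ^ (-s))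
    (b := fun n x => ‖gradient (ψ n) x - Gw x‖ ^ 2 + (l + 1) * NN m (ψ n x - w x) x)
    (fun n => meas _ _ (T.test n).c1.continuous.aestronglyMeasurable
      (cont_grad (T.test n).c1).aestronglyMeasurable) ha
    (fun n => (T.idG n).add ((w2 n).const_mul _))
    (fun n => ae_of_all _ (fun x => by have := NN_nonneg m (ψ n x - w x) x; positivity))
    (fun n => ae_of_all _ (fun x => bnd x _ _)) hlim0
    (by
      filter_upwards [T.aew, T.aeG] with x h1 h2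
      exact ((tendsto_const_nhds.inner h2).add (((h1.const_mul _).mul_const _).const_mul _)).sub
        ((h1.const_mul _).mul_const _))
    (by
      have e : ∀ n, ∫ x, (‖gradient (ψ n) x - Gw x‖ ^ 2 + (l + 1) * NN m (ψ n x - w x) x) ∂μ
          = ∫ x, ‖gradient (ψ n) x - Gw x‖ ^ 2 ∂μ
            + (l + 1) * ∫ x, NN m (ψ n x - w x) x ∂μ := by
        intro n
        rw [integral_add (T.idG n) ((w2 n).const_mul _), integral_const_mul]
      simp only [e]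
      simpa using T.cG.add (w3.const_mul (l + 1)))
  have hF0 : ∀ n, ∫ x, (inner ℝ (G x) (gradient (ψ n) x)
      + l * (|u x| ^ (r - 2) * u x * ψ n x * ‖x‖ ^ (-s₁))
      - |u x| ^ (q - 2) * u x * ψ n x * ‖x‖ ^ (-s)) ∂μ = 0 := fun n => S.eq _ (T.test n)
  simp only [hF0] at hconv
  exact tendsto_nhds_unique hconv tendsto_const_nhds

theorem intB {w : E → ℝ} {Gw : E → E} {ψ : ℕ → E → ℝ} (S : H10 μ Ω w Gw ψ)
    (P : Par (finrank ℝ E) s₁ s r q m α γ) (h0 : (0:E) ∉ Ω) {a : ℝ} (ha : 0 ≤ a) :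
    Integrable (fun x => |a * w x| ^ r * ‖x‖ ^ (-s₁)) μ ∧
      Integrable (fun x => |a * w x| ^ q * ‖x‖ ^ (-s)) μ := by
  have hum : AEMeasurable w μ := S.mw.aemeasurable
  constructor
  · refine ((intNN S P h0).1.const_mul (a ^ r)).mono' ?_ (ae_of_all _ fun x => ?_)
    · apply AEMeasurable.aestronglyMeasurable; fun_prop
    · have := P.NN1 (w x) x
      rw [Real.norm_eq_abs, abs_of_nonneg (by positivity), abs_mul, abs_of_nonneg ha,
        Real.mul_rpow ha (abs_nonneg _), mul_assoc]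
      gcongr
  · refine ((intNN S P h0).1.const_mul (a ^ q)).mono' ?_ (ae_of_all _ fun x => ?_)
    · apply AEMeasurable.aestronglyMeasurable; fun_prop
    · have := P.NN2 (w x) x
      rw [Real.norm_eq_abs, abs_of_nonneg (by positivity), abs_mul, abs_of_nonneg ha,
        Real.mul_rpow ha (abs_nonneg _), mul_assoc]
      gcongr

theorem intB1 {w : E → ℝ} {Gw : E → E} {ψ : ℕ → E → ℝ} (S : H10 μ Ω w Gw ψ)
    (P : Par (finrank ℝ E) s₁ s r q m α γ) (h0 : (0:E) ∉ Ω) :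
    Integrable (fun x => |w x| ^ r * ‖x‖ ^ (-s₁)) μ ∧
      Integrable (fun x => |w x| ^ q * ‖x‖ ^ (-s)) μ := by
  simpa only [one_mul] using intB S P h0 zero_le_one

theorem level_cut (S : H10 μ Ω u G φ) (P : Par (finrank ℝ E) s₁ s r q m α γ) {η : ℝ}
    (hη : 0 < η) :
    ∃ T : ℝ, 0 ≤ T ∧
      Integrable (fun x => (max (|u x| ^ (m - 2) - T) 0) ^ ((finrank ℝ E : ℝ) / 2)) μ ∧
      ∫ x, (max (|u x| ^ (m - 2) - T) 0) ^ ((finrank ℝ E : ℝ) / 2) ∂μ ≤ η := by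
  have hn := P.hn
  have hm2 := P.m_gt
  have hum : AEMeasurable u μ := S.mw.aemeasurable
  have iU := (S.cS P.fr P.hm).1
  have em : (m - 2) * ((finrank ℝ E : ℝ) / 2) = m := by
    have : (finrank ℝ E : ℝ) - 2 ≠ 0 := by linarith
    rw [P.hm]; field_simp; ring
  have meas : ∀ j : ℕ, AEStronglyMeasurable
      (fun x => (max (|u x| ^ (m - 2) - j) 0) ^ ((finrank ℝ E : ℝ) / 2)) μ := by
    intro j
    apply AEMeasurable.aestronglyMeasurable; fun_prop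
  have bnd : ∀ j : ℕ, ∀ᵐ x ∂μ,
      ‖(max (|u x| ^ (m - 2) - j) 0) ^ ((finrank ℝ E : ℝ) / 2)‖ ≤ |u x| ^ m := by
    intro j
    refine ae_of_all _ (fun x => ?_)
    rw [Real.norm_eq_abs, abs_of_nonneg (by positivity)]
    have h1 : max (|u x| ^ (m - 2) - j) 0 ≤ |u x| ^ (m - 2) :=
      max_le (by simp) (by positivity)
    calc _ ≤ (|u x| ^ (m - 2)) ^ ((finrank ℝ E : ℝ) / 2) := by gcongr
      _ = _ := by rw [← Real.rpow_mul (abs_nonneg _), em]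
  have lim := tendsto_integral_of_dominated_convergence (f := fun _ => (0 : ℝ)) _ meas iU bnd
    (ae_of_all _ (fun x => by
      obtain ⟨j0, hj0⟩ := exists_nat_ge (|u x| ^ (m - 2))
      refine tendsto_const_nhds.congr' ?_
      filter_upwards [eventually_ge_atTop j0] with j hj
      have : (j0 : ℝ) ≤ j := by exact_mod_cast hj
      rw [max_eq_right (by linarith), Real.zero_rpow (by positivity)]))
  rw [integral_zero] at lim
  obtain ⟨j, hj⟩ := (lim.eventually (ge_mem_nhds hη)).exists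
  exact ⟨j, by positivity, iU.mono' (meas j) (bnd j), hj⟩

theorem absorb (S : H10 μ Ω u G φ) (P : Par (finrank ℝ E) s₁ s r q m α γ) (h0 : (0:E) ∉ Ω)
    {ε : ℝ} (hε : 0 < ε) :
    ∃ T : ℝ, 0 ≤ T ∧ ∀ (Ψ : E ≃ₜ E) (κ : ℝ), Measure.map Ψ μ = ENNReal.ofReal κ • μ → 0 ≤ κ →
      κ ≤ 1 → ∀ (k : E → ℝ) (Gk : E → E) (ψ : ℕ → E → ℝ), H10 μ Ω k Gk ψ →
      Integrable (fun x => |u (Ψ x)| ^ (q - 2) * ‖x‖ ^ (-s) * k x ^ 2) μ ∧
      ∫ x, |u (Ψ x)| ^ (q - 2) * ‖x‖ ^ (-s) * k x ^ 2 ∂μ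
        ≤ ε * ∫ x, ‖Gk x‖ ^ 2 ∂μ + T * ∫ x, k x ^ 2 ∂μ := by
  have hn := P.hn
  have hm2 := P.m_gt
  obtain ⟨CS, hCS0, hCS⟩ := sob_H10 μ P.fr P.hm
  set C0 := (ε / 8) ^ (-(s / (2 - s))) with hC0
  have hC00 : 0 < C0 := by positivity
  set D := C0 * (CS ^ (2 / m) + 1) with hD
  have hD0 : 0 < D := by positivity
  set n2 := (finrank ℝ E : ℝ) / 2 with hn2
  have hn20 : 0 < n2 := by rw [hn2]; linarith
  obtain ⟨T, hT0, iT, eT⟩ := level_cut S P (η := (ε / 2 / D) ^ n2) (by positivity)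
  rw [← hn2] at iT eT
  refine ⟨C0 * T, by positivity, fun Ψ κ hmap hκ0 hκ1 k Gk ψ K => ?_⟩
  have hum : AEMeasurable u μ := S.mw.aemeasurable
  have hum' : AEMeasurable (fun x => u (Ψ x)) μ := by
    have h1 : AEMeasurable u (Measure.map Ψ μ) := by
      rw [hmap]; exact hum.smul_measure _
    exact h1.comp_aemeasurable Ψ.continuous.measurable.aemeasurable
  have hkm : AEMeasurable k μ := K.mw.aemeasurable
  have hm1 : ∀ f : E → ℝ, AEMeasurable f μ →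
      AEMeasurable (fun x => max (|f x| ^ (m - 2) - T) 0) μ := fun f hf => by fun_prop
  have hm3 : ∀ f : E → ℝ, AEMeasurable f μ →
      AEMeasurable (fun x => |f x| ^ (q - 2) * ‖x‖ ^ (-s) * k x ^ 2) μ := fun f hf => by fun_prop
  obtain ⟨iH, eH⟩ := K.hardy0 h0 P.fr
  obtain ⟨iS, eS⟩ := hCS _ _ _ _ K
  have hconj : n2.HolderConjugate (m / 2) := by
    rw [Real.holderConjugate_iff]
    have : (finrank ℝ E : ℝ) - 2 ≠ 0 := by linarith
    have : (finrank ℝ E : ℝ) ≠ 0 := by linarith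
    refine ⟨by rw [hn2]; linarith, ?_⟩
    rw [hn2, P.hm]; field_simp; ring
  have ek : ∀ x, (k x ^ 2) ^ (m / 2) = |k x| ^ m := by
    intro x
    rw [← sq_abs, ← Real.rpow_natCast, ← Real.rpow_mul (abs_nonneg _)]
    congr 1; push_cast; ring
  obtain ⟨iB, eB⟩ := holder_real (μ := μ) (f := fun x => max (|u (Ψ x)| ^ (m - 2) - T) 0)
    (g := fun x => k x ^ 2) hconj (fun x => le_max_right _ _) (fun x => sq_nonneg _)
    (hm1 _ hum').aestronglyMeasurable (K.mw.pow 2)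
    (int_comp hmap iT) (by simpa only [ek] using iS)
  simp only [ek] at eB
  rw [integral_comp hmap hκ0 (fun x => (max (|u x| ^ (m - 2) - T) 0) ^ n2)] at eB
  set Y := ∫ x, ‖Gk x‖ ^ 2 ∂μ with hY
  have hY0 : 0 ≤ Y := integral_nonneg (fun x => by positivity)
  have q0 : 0 ≤ ∫ x, (max (|u x| ^ (m - 2) - T) 0) ^ n2 ∂μ :=
    integral_nonneg (fun x => by positivity)
  have q1 : (κ * ∫ x, (max (|u x| ^ (m - 2) - T) 0) ^ n2 ∂μ) ^ (1 / n2) ≤ ε / 2 / D := by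
    have h1 : κ * ∫ x, (max (|u x| ^ (m - 2) - T) 0) ^ n2 ∂μ ≤ (ε / 2 / D) ^ n2 :=
      (mul_le_of_le_one_left q0 hκ1).trans eT
    calc _ ≤ ((ε / 2 / D) ^ n2) ^ (1 / n2) := by gcongr
      _ = _ := by
        rw [← Real.rpow_mul (by positivity), mul_one_div_cancel hn20.ne', Real.rpow_one]
  have q2 : (∫ x, |k x| ^ m ∂μ) ^ (1 / (m / 2)) ≤ (CS ^ (2 / m) + 1) * Y := by
    have h1 : 0 ≤ ∫ x, |k x| ^ m ∂μ := integral_nonneg (fun x => by positivity)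
    calc _ ≤ (CS * Y ^ (m / 2)) ^ (1 / (m / 2)) := by gcongr
      _ = CS ^ (2 / m) * Y := by
        rw [Real.mul_rpow hCS0 (by positivity), ← Real.rpow_mul hY0,
          mul_one_div_cancel (by positivity), Real.rpow_one, one_div_div]
      _ ≤ _ := by nlinarith
  have q3 : C0 * ∫ x, max (|u (Ψ x)| ^ (m - 2) - T) 0 * k x ^ 2 ∂μ ≤ ε / 2 * Y := by
    calc _ ≤ C0 * (ε / 2 / D * ((CS ^ (2 / m) + 1) * Y)) := by
          gcongr
          refine eB.trans ?_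
          gcongr
      _ = _ := by rw [hD]; field_simp
  have j1 : Integrable (fun x => ε / 8 * (‖x‖ ^ (-2 : ℝ) * k x ^ 2) + C0 * T * k x ^ 2) μ :=
    (iH.const_mul _).add (K.iw.const_mul _)
  have j2 := j1.add (iB.const_mul C0)
  have pw : ∀ᵐ x ∂μ, 0 ≤ |u (Ψ x)| ^ (q - 2) * ‖x‖ ^ (-s) * k x ^ 2 ∧
      |u (Ψ x)| ^ (q - 2) * ‖x‖ ^ (-s) * k x ^ 2
      ≤ ε / 8 * (‖x‖ ^ (-2 : ℝ) * k x ^ 2) + C0 * T * k x ^ 2
        + C0 * (max (|u (Ψ x)| ^ (m - 2) - T) 0 * k x ^ 2) := by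
    refine ae_of_all _ fun x => ?_
    have hx := abs_nonneg (u (Ψ x))
    refine ⟨by positivity, ?_⟩
    have h1 := P.pw2' hx (norm_nonneg x) (κ := ε / 8) (by positivity)
    rw [← hC0] at h1
    have h2 : |u (Ψ x)| ^ (m - 2) ≤ T + max (|u (Ψ x)| ^ (m - 2) - T) 0 := by
      linarith [le_max_left (|u (Ψ x)| ^ (m - 2) - T) 0]
    have h3 := mul_le_mul_of_nonneg_left h2 hC00.le
    have h4 := mul_le_mul_of_nonneg_right (h1.trans (add_le_add le_rfl h3)) (sq_nonneg (k x))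
    linarith
  have i0 : Integrable (fun x => |u (Ψ x)| ^ (q - 2) * ‖x‖ ^ (-s) * k x ^ 2) μ := by
    refine j2.mono' (hm3 _ hum').aestronglyMeasurable ?_
    filter_upwards [pw] with x hx
    rw [Real.norm_eq_abs, abs_of_nonneg hx.1]
    exact hx.2
  refine ⟨i0, ?_⟩
  have := integral_mono_ae i0 j2 (pw.mono (fun x hx => hx.2))
  simp only [Pi.add_apply] at this
  rw [integral_add j1 (iB.const_mul C0), integral_add (iH.const_mul _) (K.iw.const_mul _),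
    integral_const_mul, integral_const_mul, integral_const_mul] at this
  have h5 : ε / 8 * ∫ x, ‖x‖ ^ (-2 : ℝ) * k x ^ 2 ∂μ ≤ ε / 8 * (4 * Y) := by gcongr
  linarith

end Pool.Agent.Lib.MP_a271d0_an.G.W
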