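import Pool.Agent.Lib.MP_a271d0_an.W.Flw

/-! The comparison step and the non-existence theorem at small curvature scale. -/

set_option autoImplicit false
set_option linter.unusedSectionVars false
open MeasureTheory Filter Topology Set Module
open scoped ENNReal

namespace Pool.Agent.Lib.MP_a271d0_an.G.W

variable {E : Type*} [NormedAddCommGroup E] [InnerProductSpace ℝ E] [CompleteSpace E]
  [FiniteDimensional ℝ E] [MeasurableSpace E] [BorelSpace E]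
variable {μ : Measure E} [μ.IsAddHaarMeasure] {Ω : Set E} {Λ L γ : ℝ} {Φ Φ' : ℝ → E → E}
  {χ : E → ℝ} {u : E → ℝ} {G : E → E} {φ : ℕ → E → ℝ} {l s₁ s r q m α : ℝ}

theorem Flow2.step (F : Flow2 μ Ω Λ γ Φ Φ') (C : Cut L Λ χ) (hL : 0 ≤ L) (hΛ : 0 < Λ)
    (P : Par (finrank ℝ E) s₁ s r q m α γ) (hl : 0 ≤ l) (S : Sol μ Ω u G φ l s₁ s r q)
    (h0 : (0:E) ∉ Ω) {ρ : ℝ} (hρ : ∀ x ∈ Ω, ‖x‖ ≤ ρ) {Z : ℝ}
    (eA : ∫ x, Wt Λ γ x * ‖G x‖ ^ 2 ∂μ ≤ Z)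
    (eB : l * ∫ x, Wt Λ γ x * (|u x| ^ r * ‖x‖ ^ (-s₁)) ∂μ ≤ Z)
    (eK : ∫ x, Wt Λ γ x * (|u x| ^ q * ‖x‖ ^ (-s)) ∂μ ≤ Z)
    (eH : ∫ x, Wt Λ γ x * (‖x‖ ^ (-2 : ℝ) * u x ^ 2) ∂μ ≤ Z) :
    ∃ D : ℝ, 0 ≤ D ∧ ∀ δ : ℝ, 0 < δ → δ ≤ 1 →
      l * ((1 - (1 + δ) ^ (-γ)) * (∫ x, χ x ^ 2 * (|u x| ^ r * ‖x‖ ^ (-s₁)) ∂μ) / r)
        ≤ δ * (3 * (1764 * L + 624) + 100 * L + 100 * L * (16 * ((α + 1) * 2 ^ α) ^ 2)) * Z
          + δ ^ 2 * D := by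
  have hp := P.r_gt
  have hq := P.q_gt
  have hα := P.α_pos
  have hγ0 := P.γ_pos.le
  have hγ2 := P.γ_le
  obtain ⟨iu1, iu2⟩ := intB1 S.h P h0
  have iA := Wt_int hΛ hγ0 S.h.iG
  have iB := Wt_int hΛ hγ0 iu1
  have iK := Wt_int hΛ hγ0 iu2
  have iH := Wt_int hΛ hγ0 (S.h.hardy0 h0 P.fr).1
  have hA0 : 0 ≤ ∫ x, Wt Λ γ x * ‖G x‖ ^ 2 ∂μ :=
    integral_nonneg (fun x => mul_nonneg (Wt_nonneg hΛ x) (sq_nonneg _))
  have hZ : 0 ≤ Z := hA0.trans eA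
  obtain ⟨T, hT0, hT⟩ := absorb S.h P h0 (ε := 1 / (20 * (q - 1))) (by
    have : 0 < q - 1 := by linarith
    positivity)
  set M := 16 * ((α + 1) * 2 ^ α) ^ 2 with hM
  have hM0 : 0 ≤ M := by positivity
  have hq1 : 0 < q - 1 := by linarith
  refine ⟨((L * Λ) ^ 2 + 5 * (q - 1) * T) * (4 / Λ ^ 2) * (M * Z), by positivity,
    fun δ hδ hδ1 => ?_⟩
  set t := 1 + δ with htd
  have ht : t ∈ Icc (1:ℝ) 2 := ⟨by linarith, by linarith⟩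
  have ht0 : 0 < t := by linarith
  have htδ : t - 1 = δ := by linarith
  obtain ⟨Ψ, h1, hmap, hsm⟩ := F.fl.hom t ht
  have hΨ : ⇑Ψ = Φ t := funext h1
  have hκ0 : 0 ≤ t ^ (-(finrank ℝ E : ℝ)) := by positivity
  obtain ⟨CD, hCD⟩ : ∃ CD, ∀ x, Ψ x ∈ Ω → ‖fderiv ℝ Ψ x‖ ≤ CD := by
    have hc : IsCompact (Ψ ⁻¹' Metric.closedBall 0 ρ) :=
      Ψ.isCompact_preimage.2 (isCompact_closedBall 0 ρ)
    obtain ⟨CD, h⟩ := hc.exists_bound_of_continuousOn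
      (hsm.continuous_fderiv (by simp)).continuousOn
    exact ⟨CD, fun x hx => h x (by simpa using hρ _ hx)⟩
  have V := S.h.comp hmap hκ0 hsm hCD
  have h0' : (0:E) ∉ Ψ ⁻¹' Ω := by
    rw [mem_preimage, h1, F.fl.zero ht]; exact h0
  have K1 := C.mul (Ω := Ω) V h0' P.fr (t ^ α)
    (fun x hx hx' => F.fl.dom x hx' t ht (by rw [← h1]; exact hx))
  have K2 := C.mul (Ω := Ω) S.h h0 P.fr 1 (fun x hx _ => hx)
  set Gv : E → E := fun x => t ^ α • ContinuousLinearMap.adjoint (fderiv ℝ Ψ x) (G (Ψ x))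
    with hGv
  set v : E → ℝ := fun x => t ^ α * u (Ψ x) with hv
  have K : H10 μ Ω (fun x => χ x * (v x - u x))
      (fun x => χ x • (Gv x - G x) + (v x - u x) • gradient χ x)
      (fun n x => t ^ α * χ x * φ n (Ψ x) - 1 * χ x * φ n x) := by
    convert K1.sub K2 using 2 with x x
    · simp only [hv]; ring
    · simp only [hv, hGv]; module
  have Θ := C.mul (Ω := Ω) K h0 P.fr 1 (fun x hx _ => hx)
  simp only [one_mul] at Θ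
  obtain ⟨iE, eE⟩ := S.eq_limit P hl h0 Θ
  have : Nontrivial E := Module.nontrivial_of_finrank_pos (R := ℝ) (by linarith [P.fr])
  have hne : ∀ᵐ x ∂μ, x ≠ 0 := μ.ae_ne 0
  -- integrability
  have iGv : Integrable (fun x => ‖Gv x‖ ^ 2) μ := by
    have := V.iG.const_mul ((t ^ α) ^ 2)
    refine this.congr (ae_of_all _ (fun x => ?_))
    simp only [hGv, norm_smul, mul_pow, Real.norm_eq_abs, sq_abs]
  have mGv : AEStronglyMeasurable Gv μ := V.mG.const_smul (t ^ α)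
  have iD : Integrable (fun x => ‖Gv x - G x‖ ^ 2) μ := by
    refine ((iGv.const_mul 2).add (S.h.iG.const_mul 2)).mono' ((mGv.sub S.h.mG).norm.pow 2)
      (ae_of_all _ (fun x => ?_))
    rw [Real.norm_eq_abs, abs_of_nonneg (sq_nonneg _)]
    have := norm_add_sq_le (Gv x) (-G x)
    rw [norm_neg, ← sub_eq_add_neg] at this
    exact this
  obtain ⟨iv1, iv2⟩ := intB V P h0' (a := t ^ α) (by positivity)
  obtain ⟨iW, eW⟩ := F.I5 hΛ S.h hγ0 hα.le iH ht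
  simp only [← h1] at iW eW
  rw [htδ] at eW
  change Integrable (fun x => wt Λ γ x * (v x - u x) ^ 2) μ at iW
  change ∫ x, wt Λ γ x * (v x - u x) ^ 2 ∂μ ≤ _ at eW
  change Integrable (fun x => |v x| ^ r * ‖x‖ ^ (-s₁)) μ at iv1
  change Integrable (fun x => |v x| ^ q * ‖x‖ ^ (-s)) μ at iv2
  obtain ⟨is0, es0⟩ := hT (Homeomorph.refl E) 1 (by simp) zero_le_one le_rfl _ _ _ K
  obtain ⟨is1, es1⟩ := hT Ψ _ hmap hκ0 (pow_neg_le_one ht.1) _ _ _ K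
  simp only [Homeomorph.refl_apply, id] at is0 es0
  -- changes of variables
  have I1 : ∫ x, χ x ^ 2 * ‖Gv x‖ ^ 2 ∂μ ≤ ∫ x, χ x ^ 2 * ‖G x‖ ^ 2 ∂μ
      + (1764 * L + 624) * δ * ∫ x, Wt Λ γ x * ‖G x‖ ^ 2 ∂μ := by
    obtain ⟨j, e⟩ := chg_le ht0 hmap (C.int S.h.iG) iA 1 ((1764 * L + 624) * δ)
    simp only [one_mul] at j e
    rw [← e]
    refine integral_mono (C.int iGv) j (fun x => ?_)
    have := F.P1 C hL hΛ P x ht (G (Ψ x))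
    rw [htδ, ← h1, ← hΨ] at this
    exact this
  have I2 : ∫ x, χ x ^ 2 * (|v x| ^ r * ‖x‖ ^ (-s₁)) ∂μ ≤ t ^ (-γ) * ∫ x, χ x ^ 2 * (|u x| ^ r * ‖x‖ ^ (-s₁)) ∂μ
      + (1764 * L + 624) * δ * ∫ x, Wt Λ γ x * (|u x| ^ r * ‖x‖ ^ (-s₁)) ∂μ := by
    obtain ⟨j, e⟩ := chg_le ht0 hmap (C.int iu1) iB (t ^ (-γ)) ((1764 * L + 624) * δ)
    rw [← e]
    refine integral_mono_ae (C.int iv1) j (hne.mono (fun x hx => ?_))
    have := F.P2 C hL hΛ P hx ht (u (Ψ x))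
    rw [htδ, ← h1] at this
    exact this
  have I3 : ∫ x, χ x ^ 2 * (|u x| ^ q * ‖x‖ ^ (-s)) ∂μ
      - (1764 * L + 624) * δ * ∫ x, Wt Λ γ x * (|u x| ^ q * ‖x‖ ^ (-s)) ∂μ
      ≤ ∫ x, χ x ^ 2 * (|v x| ^ q * ‖x‖ ^ (-s)) ∂μ := by
    obtain ⟨j, e⟩ := chg_le ht0 hmap (C.int iu2) iK 1 (-((1764 * L + 624) * δ))
    simp only [one_mul, neg_mul, ← sub_eq_add_neg] at j e
    rw [← e]
    refine integral_mono_ae j (C.int iv2) (hne.mono (fun x hx => ?_))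
    have := F.P3 C hL hΛ P hx ht (u (Ψ x))
    rw [htδ, ← h1] at this
    exact this
  have I6 : ∫ x, (χ x * (v x - u x)) ^ 2 ∂μ ≤ (4 / Λ ^ 2) * ∫ x, wt Λ γ x * (v x - u x) ^ 2 ∂μ := by
    rw [← integral_const_mul]
    exact integral_mono_ae K.iw (iW.const_mul _)
      (hne.mono (fun x hx => (pk C hΛ hγ0 hγ2 hx _ (0:E)).1))
  have I7 : ∫ x, ‖χ x • (Gv x - G x) + (v x - u x) • gradient χ x‖ ^ 2 ∂μ
      ≤ 2 * ∫ x, χ x ^ 2 * ‖Gv x - G x‖ ^ 2 ∂μ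
        + 2 * (L * Λ) ^ 2 * (4 / Λ ^ 2) * ∫ x, wt Λ γ x * (v x - u x) ^ 2 ∂μ := by
    rw [← integral_const_mul, ← integral_const_mul,
      ← integral_add ((C.int iD).const_mul _) (iW.const_mul _)]
    exact integral_mono_ae K.iG (((C.int iD).const_mul _).add (iW.const_mul _))
      (hne.mono (fun x hx => (pk C hΛ hγ0 hγ2 hx _ _).2))
  -- the main inequality
  have j1 : Integrable (fun x => (χ x ^ 2 * ‖Gv x‖ ^ 2 - χ x ^ 2 * ‖G x‖ ^ 2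
      - χ x ^ 2 * ‖Gv x - G x‖ ^ 2) / 2) μ :=
    (((C.int iGv).sub (C.int S.h.iG)).sub (C.int iD)).div_const 2
  have j2 : Integrable (fun x => 100 * L * (δ * (Wt Λ γ x * ‖G x‖ ^ 2)
      + δ⁻¹ * (wt Λ γ x * (v x - u x) ^ 2))) μ :=
    ((iA.const_mul _).add (iW.const_mul _)).const_mul _
  have j3 : Integrable (fun x => l * ((χ x ^ 2 * (|v x| ^ r * ‖x‖ ^ (-s₁))
      - χ x ^ 2 * (|u x| ^ r * ‖x‖ ^ (-s₁))) / r)) μ :=
    (((C.int iv1).sub (C.int iu1)).div_const _).const_mul _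
  have j4 : Integrable (fun x => (χ x ^ 2 * (|v x| ^ q * ‖x‖ ^ (-s))
      - χ x ^ 2 * (|u x| ^ q * ‖x‖ ^ (-s))) / q) μ := ((C.int iv2).sub (C.int iu2)).div_const _
  have j5 : Integrable (fun x => (q - 1) * (|u x| ^ (q - 2) * ‖x‖ ^ (-s) * (χ x * (v x - u x)) ^ 2
      + 4 * (|u (Ψ x)| ^ (q - 2) * ‖x‖ ^ (-s) * (χ x * (v x - u x)) ^ 2))) μ :=
    (is0.add (is1.const_mul 4)).const_mul _
  have j12 := iadd j1 j2
  have j123 := iadd j12 j3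
  have j1234 := isub j123 j4
  have t4 : (t ^ α) ^ (q - 2) ≤ 4 := by
    rw [← Real.rpow_mul ht0.le]
    have a1 : α * (q - 2) ≤ 2 := by linarith [P.αq, P.α2, P.hs0]
    calc t ^ (α * (q - 2)) ≤ t ^ (2:ℝ) := Real.rpow_le_rpow_of_exponent_le ht.1 a1
      _ ≤ 2 ^ (2:ℝ) := by gcongr; exact ht.2
      _ = 4 := by norm_num
  have main := integral_mono_ae iE (iadd j1234 j5) (by
    filter_upwards [hne] with x a3
    have b1 := point_main P (a := χ x) (u := u x) (v := v x)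
      (Real.rpow_nonneg (norm_nonneg x) (-s₁)) (Real.rpow_nonneg (norm_nonneg x) (-s)) hl (G x)
      (Gv x) (gradient χ x)
    have b2 := cross C hL hΛ hγ0 hγ2 a3 hδ (v x - u x) (G x)
    have b3 : |v x| ^ (q - 2) ≤ 4 * |u (Ψ x)| ^ (q - 2) := by
      simp only [hv]
      rw [abs_mul, abs_of_pos (by positivity), Real.mul_rpow (by positivity) (abs_nonneg _)]
      gcongr
    have b4 : (q - 1) * (|v x| ^ (q - 2) * ‖x‖ ^ (-s) * (χ x * (v x - u x)) ^ 2)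
        ≤ (q - 1) * (4 * |u (Ψ x)| ^ (q - 2) * ‖x‖ ^ (-s) * (χ x * (v x - u x)) ^ 2) := by
      gcongr
    linarith)
  rw [eE] at main
  rw [integral_add j1234 j5, integral_sub j123 j4, integral_add j12 j3, integral_add j1 j2,
    integral_const_mul l, integral_div, integral_div, integral_div, integral_const_mul,
    integral_const_mul,
    integral_sub (isub (C.int iGv) (C.int S.h.iG)) (C.int iD),
    integral_sub (C.int iGv) (C.int S.h.iG), integral_add (iA.const_mul _) (iW.const_mul _),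
    integral_sub (C.int iv1) (C.int iu1), integral_sub (C.int iv2) (C.int iu2),
    integral_add is0 (is1.const_mul 4), integral_const_mul, integral_const_mul,
    integral_const_mul] at main
  set A := ∫ x, Wt Λ γ x * ‖G x‖ ^ 2 ∂μ
  set Bγ := ∫ x, Wt Λ γ x * (|u x| ^ r * ‖x‖ ^ (-s₁)) ∂μ
  set Kγ := ∫ x, Wt Λ γ x * (|u x| ^ q * ‖x‖ ^ (-s)) ∂μ
  set H := ∫ x, Wt Λ γ x * (‖x‖ ^ (-2 : ℝ) * u x ^ 2) ∂μ
  set Hh := ∫ x, wt Λ γ x * (v x - u x) ^ 2 ∂μ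
  set a1 := ∫ x, χ x ^ 2 * ‖Gv x‖ ^ 2 ∂μ
  set a0 := ∫ x, χ x ^ 2 * ‖G x‖ ^ 2 ∂μ
  set Y := ∫ x, χ x ^ 2 * ‖Gv x - G x‖ ^ 2 ∂μ
  set b1 := ∫ x, χ x ^ 2 * (|v x| ^ r * ‖x‖ ^ (-s₁)) ∂μ
  set b0 := ∫ x, χ x ^ 2 * (|u x| ^ r * ‖x‖ ^ (-s₁)) ∂μ
  set k1 := ∫ x, χ x ^ 2 * (|v x| ^ q * ‖x‖ ^ (-s)) ∂μ
  set k0 := ∫ x, χ x ^ 2 * (|u x| ^ q * ‖x‖ ^ (-s)) ∂μ
  set s0 := ∫ x, |u x| ^ (q - 2) * ‖x‖ ^ (-s) * (χ x * (v x - u x)) ^ 2 ∂μ
  set s1 := ∫ x, |u (Ψ x)| ^ (q - 2) * ‖x‖ ^ (-s) * (χ x * (v x - u x)) ^ 2 ∂μ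
  set Yk := ∫ x, ‖χ x • (Gv x - G x) + (v x - u x) • gradient χ x‖ ^ 2 ∂μ
  set kk := ∫ x, (χ x * (v x - u x)) ^ 2 ∂μ
  set J := (1764 * L + 624) * δ with hJ
  have hJ0 : 0 ≤ J := by positivity
  have c0 : Hh ≤ δ ^ 2 * (M * Z) := by
    refine eW.trans ?_
    have : 8 * ((α + 1) * 2 ^ α) ^ 2 * (A + H) ≤ 8 * ((α + 1) * 2 ^ α) ^ 2 * (Z + Z) := by gcongr
    have h2 : 8 * ((α + 1) * 2 ^ α) ^ 2 * (Z + Z) = M * Z := by rw [hM]; ring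
    rw [h2] at this
    gcongr
  have c1 : (a1 - a0 - Y) / 2 ≤ J * Z - Y / 2 := by
    have : J * A ≤ J * Z := by gcongr
    have : 0 ≤ J * Z := by positivity
    linarith
  have c2 : 100 * L * (δ * A + δ⁻¹ * Hh) ≤ 100 * L * (δ * Z + δ * (M * Z)) := by
    have : δ⁻¹ * Hh ≤ δ * (M * Z) := by
      rw [inv_mul_le_iff₀ hδ]; linarith
    gcongr
  have c3 : l * ((b1 - b0) / r) ≤ -(l * ((1 - t ^ (-γ)) * b0 / r)) + J * Z := by
    have d1 : J * (l * Bγ) ≤ J * Z := by gcongr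
    have d0 := mul_le_mul_of_nonneg_left I2 hl
    have d2 : l * (b1 - b0) / r ≤ (-(l * ((1 - t ^ (-γ)) * b0)) + J * Z) / r := by
      gcongr; linarith
    have d3 : J * Z / r ≤ J * Z := div_le_self (by positivity) (by linarith)
    rw [add_div, neg_div, mul_div_assoc, mul_div_assoc] at d2
    linarith
  have c4 : -((k1 - k0) / q) ≤ J * Z := by
    have d1 : J * Kγ ≤ J * Z := by gcongr
    have d2 : (k0 - k1) / q ≤ (J * Z) / q := by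
      gcongr; linarith
    have d3 : J * Z / q ≤ J * Z := div_le_self (by positivity) (by linarith)
    have : -((k1 - k0) / q) = (k0 - k1) / q := by ring
    linarith
  have c5 : (q - 1) * (s0 + 4 * s1)
      ≤ Y / 2 + δ ^ 2 * (((L * Λ) ^ 2 + 5 * (q - 1) * T) * (4 / Λ ^ 2) * (M * Z)) := by
    have d1 : (q - 1) * (s0 + 4 * s1) ≤ (q - 1) * (5 * (1 / (20 * (q - 1)) * Yk + T * kk)) := by
      gcongr; linarith
    have d2 : (q - 1) * (5 * (1 / (20 * (q - 1)) * Yk + T * kk))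
        = Yk / 4 + 5 * (q - 1) * T * kk := by field_simp; ring
    have d3 : 5 * (q - 1) * T * kk ≤ 5 * (q - 1) * T * ((4 / Λ ^ 2) * (δ ^ 2 * (M * Z))) := by
      gcongr
      exact I6.trans (by gcongr)
    have d4 : 2 * (L * Λ) ^ 2 * (4 / Λ ^ 2) * Hh
        ≤ 2 * (L * Λ) ^ 2 * (4 / Λ ^ 2) * (δ ^ 2 * (M * Z)) := by gcongr
    have d5 : 0 ≤ (L * Λ) ^ 2 * (4 / Λ ^ 2) * (δ ^ 2 * (M * Z)) := by positivity
    linarith
  rw [hJ] at c1 c3 c4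
  linarith

theorem gamma_low {δ γ : ℝ} (hδ : 0 ≤ δ) (hδ1 : δ ≤ 1) (hγ : 0 ≤ γ) (hγ2 : γ ≤ 2) :
    γ / 6 * δ ≤ 1 - (1 + δ) ^ (-γ) := by
  have h1 := gamma_lower hδ hδ1 (γ := γ / 2) (by positivity) (by linarith)
  have h2 : (1 + δ) ^ (-γ) ≤ (1 + δ) ^ (-(γ / 2)) :=
    Real.rpow_le_rpow_of_exponent_le (by linarith) (by linarith)
  linarith

theorem nonexist (μ : Measure E) [μ.IsAddHaarMeasure] (P : Par (finrank ℝ E) s₁ s r q m α γ) :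
    ∃ c : ℝ, 0 < c ∧ ∀ (Λ l : ℝ) (e : E) (Ω : Set E) (Φ Φ' : ℝ → E → E) (ρ : ℝ)
      (u : E → ℝ) (G : E → E) (φ : ℕ → E → ℝ), 0 < Λ → c * Λ ^ γ ≤ l → ‖e‖ = 1 →
      (∀ x ∈ Ω, 0 < Λ * ‖x‖ ^ 2 + inner ℝ e x) → Flow2 μ Ω Λ γ Φ Φ' →
      (∀ x ∈ Ω, ‖x‖ ≤ ρ) → Sol μ Ω u G φ l s₁ s r q → u =ᵐ[μ] 0 := by
  obtain ⟨CW, hCW0, hCW⟩ := weighted (μ := μ) P
  obtain ⟨L, hL, hcut⟩ := exists_cut E
  have hp := P.r_gt
  have hα := P.α_pos
  have hγ0 := P.γ_pos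
  have hγ2 := P.γ_le
  set K := 3 * (1764 * L + 624) + 100 * L + 100 * L * (16 * ((α + 1) * 2 ^ α) ^ 2) with hK
  have hK0 : 0 ≤ K := by positivity
  set β := γ / (6 * r) with hβ
  have hβ0 : 0 < β := by positivity
  refine ⟨2 * ((441 * β + K) * CW + 1) / β, by positivity,
    fun Λ l e Ω Φ Φ' ρ u G φ hΛ hc he hΩ F hρ S => ?_⟩
  have hl : 0 < l := lt_of_lt_of_le (by positivity) hc
  have h0 : (0:E) ∉ Ω := fun h => by simpa using hΩ 0 h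
  obtain ⟨χ, C⟩ := hcut Λ hΛ
  obtain ⟨eA, eB, eK, eH⟩ := hCW Λ e Ω u G φ l hΛ he hΩ hl.le S
  obtain ⟨D, hD0, hD⟩ := F.step C hL hΛ P hl.le S h0 hρ eA eB eK eH
  rw [← hK] at hD
  have iu1 := (intB1 S.h P h0).1
  have iB := Wt_int hΛ hγ0.le iu1
  have hB0 : ∀ x, 0 ≤ |u x| ^ r * ‖x‖ ^ (-s₁) := fun x => by positivity
  by_contra hu
  set B := ∫ x, |u x| ^ r * ‖x‖ ^ (-s₁) ∂μ with hB
  have hBpos : 0 < B := by
    refine lt_of_le_of_ne (integral_nonneg hB0) fun h => hu ?_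
    have : Nontrivial E := Module.nontrivial_of_finrank_pos (R := ℝ) (by linarith [P.fr])
    filter_upwards [(integral_eq_zero_iff_of_nonneg hB0 iu1).1 h.symm, μ.ae_ne 0] with x h1 h2
    by_contra h3
    have h4 : 0 < |u x| := abs_pos.2 h3
    have h5 : 0 < ‖x‖ := norm_pos_iff.2 h2
    exact (show 0 < |u x| ^ r * ‖x‖ ^ (-s₁) by positivity).ne' h1
  have I4 : l * B - 441 * (CW * Λ ^ γ * B)
      ≤ l * ∫ x, χ x ^ 2 * (|u x| ^ r * ‖x‖ ^ (-s₁)) ∂μ := by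
    have h1 := integral_mono (isub iu1 (iB.const_mul 441)) (C.int iu1) (fun x => by
      have := mul_le_mul_of_nonneg_right (P4 C hΛ hγ0.le hγ2 x) (hB0 x)
      beta_reduce
      linarith)
    rw [integral_sub iu1 (iB.const_mul _), integral_const_mul] at h1
    have h2 := mul_le_mul_of_nonneg_left h1 hl.le
    linarith
  set b0 := ∫ x, χ x ^ 2 * (|u x| ^ r * ‖x‖ ^ (-s₁)) ∂μ
  have hb0 : 0 ≤ b0 := integral_nonneg fun x => by positivity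
  set δ := min 1 (β * (l * B) / (4 * (D + 1))) with hδ
  have hδ0 : 0 < δ := lt_min one_pos (by positivity)
  have h1 := hD δ hδ0 (min_le_left _ _)
  have h2 := gamma_low hδ0.le (min_le_left _ _) hγ0.le hγ2
  have h3 : δ * (β * (l * b0)) ≤ l * ((1 - (1 + δ) ^ (-γ)) * b0 / r) := by
    have : δ * (β * (l * b0)) = l * (γ / 6 * δ * b0 / r) := by rw [hβ]; field_simp
    rw [this]; gcongr
  have h4 : β * (l * b0) ≤ K * (CW * Λ ^ γ * B) + δ * D := by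
    apply le_of_mul_le_mul_left _ hδ0
    linarith
  have h5 : δ * D ≤ β * (l * B) / 4 := by
    have a1 : δ ≤ β * (l * B) / (4 * (D + 1)) := min_le_right _ _
    rw [le_div_iff₀ (by positivity)] at a1
    nlinarith
  have h6 : Λ ^ γ * ((441 * β + K) * CW) ≤ β * l / 2 := by
    rw [div_mul_eq_mul_div, div_le_iff₀ hβ0] at hc
    have : 0 < Λ ^ γ := by positivity
    linarith
  have h7 := mul_le_mul_of_nonneg_right h6 hBpos.le
  have h8 := mul_le_mul_of_nonneg_left I4 hβ0.le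
  have h9 : 0 < β * (l * B) := by positivity
  linarith

end Pool.Agent.Lib.MP_a271d0_an.G.W
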