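import Pool.Agent.Lib.MP_a271d0_an.W.Par
import Pool.Agent.Lib.MP_a271d0_an.W.Ext

/-! The weighted energy estimate. -/

set_option autoImplicit false
set_option linter.unusedSectionVars false
open MeasureTheory Filter Topology Set Module
open scoped ENNReal

namespace Pool.Agent.Lib.MP_a271d0_an.G.W

variable {E : Type*} [NormedAddCommGroup E] [InnerProductSpace ℝ E] [CompleteSpace E]
  [FiniteDimensional ℝ E] [MeasurableSpace E] [BorelSpace E]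
variable {Λ γ : ℝ}

theorem Wt_half (hΛ : 0 < Λ) (x : E) : Wt Λ (γ / 2) x ^ 2 = Wt Λ γ x := by
  unfold Wt
  rw [← Real.rpow_two, ← Real.rpow_mul (by positivity)]
  congr 1; ring

theorem Wt_smooth (hΛ : 0 < Λ) (a : ℝ) {x : E} (hx : x ≠ 0) :
    ContDiffAt ℝ ((⊤ : ℕ∞) : WithTop ℕ∞) (Wt Λ a : E → ℝ) x := by
  have hr : 0 < ‖x‖ := norm_pos_iff.2 hx
  have h1 : ContDiffAt ℝ ((⊤ : ℕ∞) : WithTop ℕ∞) (fun x : E => Λ * ‖x‖) x :=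
    contDiffAt_const.mul (contDiffAt_norm ℝ hx)
  have h2 : Λ * ‖x‖ / (1 + Λ * ‖x‖) ≠ 0 := by positivity
  exact (h1.div (contDiffAt_const.add h1) (by positivity)).rpow_const_of_ne h2

theorem Wt_grad (hΛ : 0 < Λ) {a : ℝ} (ha : 0 ≤ a) (ha1 : a ≤ 1) {x : E} (hx : x ≠ 0) :
    ‖gradient (Wt Λ a) x‖ ^ 2 ≤ Wt Λ a x ^ 2 * (‖x‖ ^ (-2 : ℝ) * ((1 + Λ * ‖x‖) ^ 2)⁻¹) := by
  have hr : 0 < ‖x‖ := norm_pos_iff.2 hx
  have h1 : DifferentiableAt ℝ (fun x : E => ‖x‖) x :=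
    (contDiffAt_norm ℝ (n := 1) hx).differentiableAt one_ne_zero
  have h2 : HasDerivAt (fun t : ℝ => Λ * t) Λ ‖x‖ := by
    simpa using (hasDerivAt_id ‖x‖).const_mul Λ
  have h3 := (h2.div (h2.const_add 1) (by positivity)).rpow_const (p := a)
    (Or.inl (by simp only [Pi.div_apply]; positivity))
  have h4 : HasFDerivAt (Wt Λ a : E → ℝ) _ x := h3.comp_hasFDerivAt x h1.hasFDerivAt
  have h5 : ‖fderiv ℝ (fun x : E => ‖x‖) x‖ ≤ (1 : NNReal) :=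
    norm_fderiv_le_of_lipschitz ℝ lipschitzWith_one_norm
  simp only [NNReal.coe_one] at h5
  have h6 : (Λ * (1 + Λ * ‖x‖) - Λ * ‖x‖ * Λ) / (1 + Λ * ‖x‖) ^ 2 * a
      * (Λ * ‖x‖ / (1 + Λ * ‖x‖)) ^ (a - 1) = a * (Wt Λ a x * (‖x‖ * (1 + Λ * ‖x‖))⁻¹) := by
    unfold Wt
    rw [Real.rpow_sub_one (by positivity)]
    field_simp
    ring
  have h7 : ‖gradient (Wt Λ a) x‖ ≤ Wt Λ a x * (‖x‖ * (1 + Λ * ‖x‖))⁻¹ := by
    have hW := Wt_nonneg (γ := a) hΛ x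
    rw [norm_grad, h4.fderiv, norm_smul]
    simp only [Pi.div_apply]
    rw [h6, Real.norm_eq_abs, abs_of_nonneg (by positivity)]
    calc _ ≤ 1 * (Wt Λ a x * (‖x‖ * (1 + Λ * ‖x‖))⁻¹) * 1 := by gcongr
      _ = _ := by ring
  have h8 := pow_le_pow_left₀ (norm_nonneg _) h7 2
  rw [Real.rpow_neg hr.le, Real.rpow_two]
  rwa [mul_pow, inv_pow, mul_pow, mul_inv] at h8

theorem Wt_split (hΛ : 0 < Λ) (hγ : 0 ≤ γ) (x : E) :
    ∃ τ : ℝ, 0 ≤ τ ∧ τ ≤ Λ ^ γ ∧ Wt Λ γ x = τ * ‖x‖ ^ γ := by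
  refine ⟨(Λ / (1 + Λ * ‖x‖)) ^ γ, by positivity, ?_, ?_⟩
  · exact Real.rpow_le_rpow (by positivity)
      (div_le_self hΛ.le (le_add_of_nonneg_right (by positivity))) hγ
  · unfold Wt
    rw [← Real.mul_rpow (by positivity) (norm_nonneg _)]
    congr 1; ring

variable {μ : Measure E} [μ.IsAddHaarMeasure]

theorem Wt_int (hΛ : 0 < Λ) (hγ : 0 ≤ γ) {f : E → ℝ} (hf : Integrable f μ) :
    Integrable (fun x => Wt Λ γ x * f x) μ :=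
  hf.bdd_mul (c := 1) (Wt_cont hΛ hγ).aestronglyMeasurable
    (ae_of_all _ (fun x => by
      rw [Real.norm_eq_abs, abs_of_nonneg (Wt_nonneg hΛ x)]; exact Wt_le_one hΛ hγ x))

theorem Wt_mul (hn : 3 ≤ finrank ℝ E) (hΛ : 0 < Λ) {a : ℝ} (ha : 0 ≤ a) (ha1 : a ≤ 1) {Ω : Set E}
    (h0 : (0:E) ∉ Ω) {w : E → ℝ} {G : E → E} {ψ : ℕ → E → ℝ} (S : H10 μ Ω w G ψ) :
    H10 μ Ω (fun x => Wt Λ a x * w x) (fun x => Wt Λ a x • G x + w x • gradient (Wt Λ a) x)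
      (fun n x => Wt Λ a x * ψ n x) := by
  refine S.mul h0 hn (fun x hx => Wt_smooth hΛ a hx) (C := 1) zero_le_one (fun x hx => ?_)
    inter_subset_left
  have h1 : Wt Λ a x ^ 2 ≤ 1 := pow_le_one₀ (Wt_nonneg hΛ x) (Wt_le_one hΛ ha x)
  have h2 := Wt_grad hΛ ha ha1 (x := x) (fun h => h0 (h ▸ hx))
  have h3 : ((1 + Λ * ‖x‖) ^ 2)⁻¹ ≤ 1 :=
    inv_le_one_of_one_le₀ (one_le_pow₀ (le_add_of_nonneg_right (by positivity)))
  have h4 : Wt Λ a x ^ 2 * (‖x‖ ^ (-2 : ℝ) * ((1 + Λ * ‖x‖) ^ 2)⁻¹)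
      ≤ 1 * (‖x‖ ^ (-2 : ℝ) * 1) := by gcongr
  exact ⟨h1, by linarith⟩

theorem weighted {s₁ s r q m α : ℝ} (P : Par (finrank ℝ E) s₁ s r q m α γ) :
    ∃ C : ℝ, 0 ≤ C ∧ ∀ (Λ : ℝ) (e : E) (Ω : Set E) (u : E → ℝ) (G : E → E) (φ : ℕ → E → ℝ) (l : ℝ),
      0 < Λ → ‖e‖ = 1 → (∀ x ∈ Ω, 0 < Λ * ‖x‖ ^ 2 + inner ℝ e x) → 0 ≤ l →
      Sol μ Ω u G φ l s₁ s r q →
      ∫ x, Wt Λ γ x * ‖G x‖ ^ 2 ∂μ ≤ C * Λ ^ γ * ∫ x, |u x| ^ r * ‖x‖ ^ (-s₁) ∂μ ∧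
      l * ∫ x, Wt Λ γ x * (|u x| ^ r * ‖x‖ ^ (-s₁)) ∂μ
        ≤ C * Λ ^ γ * ∫ x, |u x| ^ r * ‖x‖ ^ (-s₁) ∂μ ∧
      ∫ x, Wt Λ γ x * (|u x| ^ q * ‖x‖ ^ (-s)) ∂μ ≤ C * Λ ^ γ * ∫ x, |u x| ^ r * ‖x‖ ^ (-s₁) ∂μ ∧
      ∫ x, Wt Λ γ x * (‖x‖ ^ (-2 : ℝ) * u x ^ 2) ∂μ
        ≤ C * Λ ^ γ * ∫ x, |u x| ^ r * ‖x‖ ^ (-s₁) ∂μ := by
  have hγ0 := P.γ_pos
  have hγ2 := P.γ_le
  set C := (1 / 16 : ℝ) ^ (-((s - γ - s₁) / (2 - γ - s₁ - (s - γ - s₁)))) with hC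
  have hC0 : 0 < C := by positivity
  refine ⟨40 * C, by positivity, fun Λ e Ω u G φ l hΛ he hΩ hl S => ?_⟩
  have h0 : (0:E) ∉ Ω := fun h => by simpa using hΩ 0 h
  have ha : 0 ≤ γ / 2 := by positivity
  have ha1 : γ / 2 ≤ 1 := by linarith
  have T1 := Wt_mul P.fr hΛ ha ha1 h0 S.h
  have T2 := Wt_mul P.fr hΛ ha ha1 h0 T1
  obtain ⟨i1, e1⟩ := S.eq_limit P hl h0 T2
  obtain ⟨iV, eV⟩ := ext_hardy P.fr hΛ he hΩ T1
  obtain ⟨-, eH⟩ := T1.hardy0 h0 P.fr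
  obtain ⟨iB0, iK0⟩ := intB1 S.h P h0
  have iY := T1.iG
  have iA := Wt_int hΛ hγ0.le S.h.iG
  have iB := Wt_int hΛ hγ0.le iB0
  have iK := Wt_int hΛ hγ0.le iK0
  have iH := Wt_int hΛ hγ0.le (S.h.hardy0 h0 P.fr).1
  have : Nontrivial E := Module.nontrivial_of_finrank_pos (R := ℝ) (by linarith [P.fr])
  have hne : ∀ᵐ x ∂μ, x ≠ 0 := μ.ae_ne 0
  have eH' : ∀ x : E, ‖x‖ ^ (-2 : ℝ) * (Wt Λ (γ / 2) x * u x) ^ 2
      = Wt Λ γ x * (‖x‖ ^ (-2 : ℝ) * u x ^ 2) := fun x => by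
    rw [mul_pow, Wt_half hΛ]; ring
  simp only [eH'] at eH
  have k1 := integral_mono_ae iK (iadd (iH.const_mul (1 / 16)) (iB0.const_mul (C * Λ ^ γ))) (by
    filter_upwards [hne] with x hx
    obtain ⟨τ, t0, t1, t2⟩ := Wt_split hΛ hγ0.le x
    have h1 := P.pw3 (abs_nonneg (u x)) (norm_pos_iff.2 hx) (κ := 1 / 16) (by norm_num)
    rw [← hC, sq_abs] at h1
    have h2 := mul_le_mul_of_nonneg_left h1 t0
    have h3 := mul_le_mul_of_nonneg_right t1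
      (show 0 ≤ C * (|u x| ^ r * ‖x‖ ^ (-s₁)) by positivity)
    rw [t2]
    linarith)
  rw [integral_add (iH.const_mul _) (iB0.const_mul _), integral_const_mul, integral_const_mul] at k1
  have j1 := isub iY iV
  have j2 := iadd j1 (iB.const_mul l)
  have k2 := integral_mono_ae (isub j2 iK) i1 (by
    filter_upwards [hne] with x hx
    have h1 := mul_le_mul_of_nonneg_left (Wt_grad hΛ ha ha1 hx) (sq_nonneg (u x))
    have h2 := abs_pow_sq (z := u x) P.r_gt.le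
    have h3 := abs_pow_sq (z := u x) P.q_gt.le
    rw [← Wt_half (γ := γ) hΛ, ← h2, ← h3, norm_add_sq_real]
    simp only [inner_add_right, inner_smul_right, inner_smul_left, conj_trivial, norm_smul,
      mul_pow, Real.norm_eq_abs, sq_abs, real_inner_self_eq_norm_sq]
    linarith)
  rw [e1, integral_sub j2 iK, integral_add j1 (iB.const_mul l), integral_sub iY iV,
    integral_const_mul] at k2
  have k3 := integral_mono_ae iA (iadd (iY.const_mul 2) (iV.const_mul 2)) (by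
    filter_upwards [hne] with x hx
    have h1 := mul_le_mul_of_nonneg_left (Wt_grad hΛ ha ha1 hx) (sq_nonneg (u x))
    have h2 := norm_add_sq_le (Wt Λ (γ / 2) x • G x + u x • gradient (Wt Λ (γ / 2)) x)
      (-(u x • gradient (Wt Λ (γ / 2)) x))
    rw [add_neg_cancel_right, norm_neg, norm_smul, norm_smul, mul_pow, mul_pow, Real.norm_eq_abs,
      Real.norm_eq_abs, sq_abs, sq_abs] at h2
    rw [← Wt_half (γ := γ) hΛ]
    linarith)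
  rw [integral_add (iY.const_mul _) (iV.const_mul _), integral_const_mul, integral_const_mul] at k3
  have p1 : 0 ≤ ∫ x, ‖Wt Λ (γ / 2) x • G x + u x • gradient (Wt Λ (γ / 2)) x‖ ^ 2 ∂μ :=
    integral_nonneg fun x => by positivity
  have p2 : 0 ≤ l * ∫ x, Wt Λ γ x * (|u x| ^ r * ‖x‖ ^ (-s₁)) ∂μ :=
    mul_nonneg hl (integral_nonneg fun x => mul_nonneg (Wt_nonneg hΛ x) (by positivity))
  have p3 : 0 ≤ C * Λ ^ γ * ∫ x, |u x| ^ r * ‖x‖ ^ (-s₁) ∂μ :=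
    mul_nonneg (by positivity) (integral_nonneg fun x => by positivity)
  refine ⟨?_, ?_, ?_, ?_⟩ <;> linarith

end Pool.Agent.Lib.MP_a271d0_an.G.W
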